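import Pool.Agent.WFS.Basic

/-!
# WFS module C: automata

`f : α → V → V` is a labelled graph; `am f` its adjacency matrix (`(am f) i j` = number of letters `a` with
`f a j = i`), `wf f u v` the end of the path which starts at `v` and has the label word `u` (read from left to
right). A definite covering automaton gives a strong shift equivalent matrix.
-/

set_option autoImplicit false

namespace Pool.Agent.WFS.Lab

open Pool.Agent.WFS

/-- the end of the path with label word `u` from `v` -/
def wf {α V : Type} (f : α → V → V) (u : List α) (v : V) : V := u.foldl (fun w a => f a w) v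

section wf

variable {α V : Type} (f : α → V → V)

@[simp] theorem wf_nil (v : V) : wf f [] v = v := rfl

@[simp] theorem wf_cons (a : α) (u : List α) (v : V) : wf f (a :: u) v = wf f u (f a v) := rfl

theorem wf_append (u w : List α) (v : V) : wf f (u ++ w) v = wf f w (wf f u v) := by
  simp [wf, List.foldl_append]

theorem wf_concat (u : List α) (a : α) (v : V) : wf f (u ++ [a]) v = f a (wf f u v) := by
  simp [wf_append]

end wf

/-- the adjacency matrix of a labelled graph -/
def am {α V : Type} [Fintype α] [DecidableEq V] (f : α → V → V) : Matrix V V ℕ :=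
  fun i j => (Finset.univ.filter fun a => f a j = i).card

theorem am_eq_sum {α V : Type} [Fintype α] [DecidableEq V] (f : α → V → V) (i j : V) :
    am f i j = ∑ a, if f a j = i then 1 else 0 := by
  show (Finset.univ.filter fun a => f a j = i).card = _
  rw [Finset.card_filter]

/-- relabelling the outgoing edges does not change the matrix -/
theorem am_relabel {α V : Type} [Fintype α] [DecidableEq V] (f : α → V → V)
    (σ : V → Equiv.Perm α) : am (fun b v => f (σ v b) v) = am f := by
  ext i j
  rw [am_eq_sum, am_eq_sum]
  exact Equiv.sum_comp (σ j) (fun a => if f a j = i then 1 else 0)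

/-- merging of states with equal outgoing edges -/
theorem am_merge {α Q W : Type} [Fintype α] [Fintype Q] [DecidableEq Q] [Fintype W] [DecidableEq W]
    (δ : α → Q → Q) (ε : α → W → W) (p : Q → W) (hp : Function.Surjective p)
    (h1 : ∀ a q, p (δ a q) = ε a (p q)) (h2 : ∀ q q', p q = p q' → ∀ a, δ a q = δ a q') :
    Est (toFin (am δ)) (toFin (am ε)) := by
  classical
  let g : W → Q := Function.surjInv hp
  have hg : ∀ w, p (g w) = w := Function.surjInv_eq hp
  refine est_toFin (fun i w => (Finset.univ.filter fun a => δ a (g w) = i).card)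
    (fun w j => if p j = w then 1 else 0) ?_ ?_
  · ext i j
    rw [Matrix.mul_apply, Finset.sum_eq_single (p j)]
    · simp only [if_true, mul_one]
      show (Finset.univ.filter fun a => δ a j = i).card = _
      congr 1
      ext a
      simp [h2 (g (p j)) j (hg _) a]
    · intro w _ hw
      simp [Ne.symm hw]
    · intro h
      exact absurd (Finset.mem_univ _) h
  · ext w w'
    rw [Matrix.mul_apply, am_eq_sum]
    have : ∀ x : Q, (if p x = w then 1 else 0) *
        (Finset.univ.filter fun a => δ a (g w') = x).card =
        ∑ a, if δ a (g w') = x then (if p x = w then 1 else 0) else 0 := by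
      intro x
      rw [Finset.card_filter, Finset.mul_sum]
      refine Finset.sum_congr rfl fun a _ => ?_
      by_cases h : δ a (g w') = x <;> simp [h]
    rw [Finset.sum_congr rfl fun x _ => this x, Finset.sum_comm]
    refine Finset.sum_congr rfl fun a _ => ?_
    rw [Finset.sum_ite_eq, if_pos (Finset.mem_univ _), h1, hg]

theorem am_equiv {α Q W : Type} [Fintype α] [Fintype Q] [DecidableEq Q] [Fintype W] [DecidableEq W]
    (δ : α → Q → Q) (ε : α → W → W) (p : Q → W) (hp : Function.Bijective p)
    (h1 : ∀ a q, p (δ a q) = ε a (p q)) : Est (toFin (am δ)) (toFin (am ε)) :=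
  am_merge δ ε p hp.2 h1 fun q q' h a => by rw [hp.1 h]

/-- DEFINITE COVERING AUTOMATON -/
theorem auto_sse {α V : Type} [Fintype α] [Fintype V] [DecidableEq V] (f : α → V → V) (M : ℕ) :
    ∀ {Q : Type} [Fintype Q] [DecidableEq Q] (δ : α → Q → Q) (e : Q → V),
      Function.Surjective e → (∀ a q, e (δ a q) = f a (e q)) →
      (∀ q q', e q = e q' → ∀ y : List α, y.length = M → wf δ y q = wf δ y q') →
      Sse (toFin (am δ)) (toFin (am f)) := by
  classical
  induction M with
  | zero =>
    intro Q _ _ δ e he hcov hd
    refine (am_equiv δ f e ⟨fun q q' h => ?_, he⟩ hcov).sse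
    exact hd q q' h [] rfl
  | succ M ih =>
    intro Q _ _ δ e he hcov hd
    let r : Setoid Q :=
      { r := fun q q' => e q = e q' ∧ ∀ a, δ a q = δ a q'
        iseqv := ⟨fun q => ⟨rfl, fun _ => rfl⟩, fun h => ⟨h.1.symm, fun a => (h.2 a).symm⟩,
          fun h h' => ⟨h.1.trans h'.1, fun a => (h.2 a).trans (h'.2 a)⟩⟩ }
    have hr : ∀ q q', r.r q q' ↔ (e q = e q' ∧ ∀ a, δ a q = δ a q') := fun _ _ => Iff.rfl
    let W := Quotient r
    let p : Q → W := fun q => Quotient.mk r q
    have hp : ∀ q q', p q = p q' ↔ (e q = e q' ∧ ∀ a, δ a q = δ a q') := fun q q' =>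
      ⟨fun h => Quotient.exact h, fun h => Quotient.sound h⟩
    let ε : α → W → W := fun a => Quotient.lift (fun q => p (δ a q)) (by
      intro q q' h
      show p (δ a q) = p (δ a q')
      rw [h.2 a])
    let e' : W → V := Quotient.lift e (fun q q' h => h.1)
    have h1 : ∀ a q, p (δ a q) = ε a (p q) := fun _ _ => rfl
    have hsur : Function.Surjective p := Quotient.mk_surjective
    have : Fintype W := Fintype.ofSurjective p hsur
    have : DecidableEq W := Classical.decEq W
    have hwf : ∀ (y : List α) (q : Q), wf ε y (p q) = p (wf δ y q) := by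
      intro y
      induction y with
      | nil => intro q; rfl
      | cons a y ih => intro q; rw [wf_cons, wf_cons, ← h1, ih]
    have hwe : ∀ (y : List α) (q : Q), e (wf δ y q) = wf f y (e q) := by
      intro y
      induction y with
      | nil => intro q; rfl
      | cons a y ih => intro q; rw [wf_cons, wf_cons, ih, hcov]
    refine (am_merge δ ε p hsur h1 fun q q' h a => ((hp q q').1 h).2 a).sse.trans ?_
    refine ih ε e' ?_ ?_ ?_
    · intro v
      obtain ⟨q, hq⟩ := he v
      exact ⟨p q, hq⟩
    · intro a w
      obtain ⟨q, rfl⟩ := hsur w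
      exact hcov a q
    · intro w w' hw y hy
      obtain ⟨q, rfl⟩ := hsur w
      obtain ⟨q', rfl⟩ := hsur w'
      have hw' : e q = e q' := hw
      rw [hwf, hwf, hp]
      refine ⟨by rw [hwe, hwe, hw'], fun a => ?_⟩
      rw [← wf_concat δ, ← wf_concat δ]
      exact hd q q' hw' (y ++ [a]) (by simp [hy])

end Pool.Agent.WFS.Lab
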