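import Pool.Agent.WFS.Lab.Per

/-!
# WFS module C: the new labels `b` of the default edges on the periodic orbits

`b z = Θ z 0` on `PA`. On the long orbits (points of `Cy` outside `PA`; their minimal period `c` is `≥ N`, because a
period `< N` would put the point into `PA`): choose a base point of every orbit (for example by a choice function on
the quotient of `Cy` by the orbit relation, or by a map `base : V × (ℕ → α) → V × (ℕ → α)` with `base z` in the
orbit of `z` and `base (sg f z) = base z`), and put `b z = o` if `z = (sg f)^[j] (base z)` for some `j < k`,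
`b z = z.2 0` otherwise. Use `c` = minimal period (`k ≤ N ≤ c`).
-/

set_option autoImplicit false

namespace Pool.Agent.WFS.Lab

open Pool.Agent.WFS

theorem exists_b {α V : Type} (f : α → V → V) (o : α) (k N : ℕ) (hkN : k ≤ N)
    (Θ : V × (ℕ → α) → (ℕ → α)) :
    ∃ b : V × (ℕ → α) → α,
      (∀ z ∈ PA f o k N, b z = Θ z 0) ∧
      (∀ z ∈ Cy f o k N, z ∉ PA f o k N → ∃ c, N ≤ c ∧ (sg f)^[c] z = z ∧
        ∃ i, (∀ j < k, b ((sg f)^[i + j] z) = o) ∧
          ∀ j, k ≤ j → j < c → b ((sg f)^[i + j] z) = z.2 (i + j)) ∧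
      (∀ z ∈ Cy f o k N, z ∉ PA f o k N → b z = z.2 0 ∨ b z = o) := by
  sorry

end Pool.Agent.WFS.Lab
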