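import Pool.Agent.WFS.Lab.Per

/-!
# WFS module C: words without `o^m` and the size of `PN` (C7, first part)

`NZ o m d`: words of length `d` without `m` consecutive letters `o`. A sequence of `PN` is determined by a period
`0 < p < N` and its first `p` letters, which are a word without `o^k` (so without `o^(7k)`).
-/

set_option autoImplicit false

namespace Pool.Agent.WFS.Lab

open Pool.Agent.WFS

/-- words of length `d` without `o^m` -/
def NZ {α : Type} (o : α) (m d : ℕ) : Set (List α) :=
  {u | u.length = d ∧ ¬ (List.replicate m o <:+: u)}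

theorem NZ_finite {α : Type} [Finite α] (o : α) (m d : ℕ) : (NZ o m d).Finite :=
  (List.finite_length_eq α d).subset fun _ hu => hu.1

private theorem card_len42 (α : Type) [Fintype α] (d : ℕ) :
    {u : List α | u.length = d}.ncard = Fintype.card α ^ d := by
  have h : Nat.card {u : List α | u.length = d} = Nat.card (List.Vector α d) := rfl
  rw [← Nat.card_coe_set_eq, h, Nat.card_eq_fintype_card, card_vector]

private theorem NZ_step42 {α : Type} [Fintype α] (o : α) (m d : ℕ) :
    (NZ o m (d + m)).ncard ≤ (Fintype.card α ^ m - 1) * (NZ o m d).ncard := by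
  classical
  have hfin : {u : List α | u.length = m}.Finite := List.finite_length_eq α m
  have h1 : ({u : List α | u.length = m} \ {List.replicate m o}).ncard =
      Fintype.card α ^ m - 1 := by
    rw [Set.ncard_sdiff_singleton_of_mem (by simp), card_len42]
  rw [← h1, ← Set.ncard_prod]
  refine Set.ncard_le_ncard_of_injOn (fun u => (u.take m, u.drop m)) ?_ ?_
    ((hfin.subset Set.sdiff_subset).prod (NZ_finite o m d))
  · intro u hu
    obtain ⟨h2, h3⟩ := hu
    refine ⟨⟨?_, ?_⟩, ?_, ?_⟩
    · show (u.take m).length = m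
      rw [List.length_take, h2]
      omega
    · intro h4
      apply h3
      have h5 : u.take m = List.replicate m o := h4
      rw [← h5]
      exact (List.take_prefix m u).isInfix
    · show (u.drop m).length = d
      rw [List.length_drop, h2]
      omega
    · intro h4
      exact h3 (h4.trans (List.drop_suffix m u).isInfix)
  · intro u _ w _ h
    have h6 := Prod.mk.inj h
    rw [← List.take_append_drop m u, ← List.take_append_drop m w, h6.1, h6.2]

/-- the growth rate of the words without `o^m` is smaller than `n`. Proof: cut into blocks of length `m`, none of them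
is `o^m`: `#NZ d ≤ (n^m - 1)^(d/m) n^m`; `λ = (n^m - 1)^(1/m)` and `λ ≥ 1` because `n ≥ 2`. -/
theorem NZ_growth {α : Type} [Fintype α] (o : α) (m : ℕ) (hm : 1 ≤ m)
    (hn : 2 ≤ Fintype.card α) : ∃ C l : ℝ, 1 ≤ C ∧ 1 ≤ l ∧ l < Fintype.card α ∧
      ∀ d, ((NZ o m d).ncard : ℝ) ≤ C * l ^ d := by
  classical
  set n := Fintype.card α with hn0
  have hm0 : m ≠ 0 := by omega
  have hnm : 2 ≤ n ^ m := le_trans hn (Nat.le_self_pow hm0 n)
  have hnmR : (2 : ℝ) ≤ (n : ℝ) ^ m := by exact_mod_cast hnm
  have hb : (0 : ℝ) ≤ (n : ℝ) ^ m - 1 := by linarith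
  set l : ℝ := ((n : ℝ) ^ m - 1) ^ ((m : ℝ)⁻¹) with hl
  have hlm : l ^ m = (n : ℝ) ^ m - 1 := Real.rpow_inv_natCast_pow hb hm0
  have hl0 : 0 ≤ l := Real.rpow_nonneg hb _
  have hl1 : 1 ≤ l := Real.one_le_rpow (by linarith) (by positivity)
  have hln : l < n := by
    refine lt_of_pow_lt_pow_left₀ m (by positivity) ?_
    rw [hlm]
    linarith
  refine ⟨(n : ℝ) ^ m, l, by linarith, hl1, hln, ?_⟩
  intro d
  induction d using Nat.strong_induction_on with
  | _ d ih =>
    rcases lt_or_ge d m with hd | hd
    · have h1 : (NZ o m d).ncard ≤ n ^ d := by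
        rw [hn0, ← card_len42 α d]
        exact Set.ncard_le_ncard (fun u hu => hu.1) (List.finite_length_eq α d)
      have h2 : ((NZ o m d).ncard : ℝ) ≤ (n : ℝ) ^ d := by exact_mod_cast h1
      have h3 : (n : ℝ) ^ d ≤ (n : ℝ) ^ m :=
        pow_le_pow_right₀ (by exact_mod_cast (by omega : 1 ≤ n)) hd.le
      have h4 : (1 : ℝ) ≤ l ^ d := one_le_pow₀ hl1
      nlinarith
    · obtain ⟨e, rfl⟩ := Nat.exists_eq_add_of_le' hd
      have h1 := NZ_step42 o m e
      have h2 : ((NZ o m (e + m)).ncard : ℝ) ≤ ((n : ℝ) ^ m - 1) * ((NZ o m e).ncard : ℝ) := by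
        have h3 : ((n ^ m - 1 : ℕ) : ℝ) = (n : ℝ) ^ m - 1 := by
          rw [Nat.cast_sub (by omega)]
          push_cast
          ring
        rw [← h3]
        exact_mod_cast h1
      have h4 := ih e (by omega)
      calc ((NZ o m (e + m)).ncard : ℝ) ≤ ((n : ℝ) ^ m - 1) * ((NZ o m e).ncard : ℝ) := h2
        _ ≤ ((n : ℝ) ^ m - 1) * ((n : ℝ) ^ m * l ^ e) := mul_le_mul_of_nonneg_left h4 hb
        _ = (n : ℝ) ^ m * l ^ (e + m) := by rw [pow_add, hlm]; ring

theorem PN_card {α : Type} [Fintype α] (o : α) (k N : ℕ) (C l : ℝ) (hC : 1 ≤ C) (hl : 1 ≤ l)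
    (hk : 1 ≤ k) (hW : ∀ d, ((NZ o (7 * k) d).ncard : ℝ) ≤ C * l ^ d) :
    ((PN o k N).ncard : ℝ) ≤ N * C * l ^ N := by
  classical
  have hsub : PN o k N ⊆ ⋃ p ∈ Finset.range N,
      (fun u : List α => fun i => u.getD (i % p) o) '' NZ o (7 * k) p := by
    rintro x ⟨⟨p, hp0, hpN, hp⟩, hav⟩
    have hmod : ∀ i, x (i % p) = x i := by
      intro i
      have h1 : ∀ q i, x (i + p * q) = x i := by
        intro q
        induction q with
        | zero => intro i; simp
        | succ q ih =>
          intro i
          have h2 : i + p * (q + 1) = i + p * q + p := by ring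
          rw [h2, hp, ih]
      have h3 := h1 (i / p) (i % p)
      rw [Nat.mod_add_div] at h3
      exact h3.symm
    simp only [Set.mem_iUnion, Finset.mem_range, Set.mem_image]
    refine ⟨p, hpN, seg x p, ⟨seg_length x p, ?_⟩, ?_⟩
    · rintro ⟨s, t, hst⟩
      obtain ⟨j, hj, hne⟩ := hav s.length
      apply hne
      have hlen : s.length + 7 * k + t.length = p := by
        have h5 := congrArg List.length hst
        rw [List.length_append, List.length_append, List.length_replicate, seg_length] at h5
        exact h5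
      have hlt : s.length + j < (seg x p).length := by
        rw [seg_length]
        omega
      rw [← seg_getElem x p (s.length + j) hlt]
      have h4 : (seg x p)[s.length + j]? = some o := by
        rw [← hst, List.append_assoc, List.getElem?_append_right (by omega),
          List.getElem?_append_left (by simp; omega), List.getElem?_replicate]
        simp
        omega
      rw [List.getElem?_eq_getElem hlt] at h4
      exact Option.some.inj h4
    · funext i
      have hlt : i % p < (seg x p).length := by
        rw [seg_length]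
        exact Nat.mod_lt _ hp0
      show (seg x p).getD (i % p) o = x i
      rw [List.getD_eq_getElem _ _ hlt, seg_getElem, hmod]
  have hfin : (⋃ p ∈ Finset.range N,
      (fun u : List α => fun i => u.getD (i % p) o) '' NZ o (7 * k) p).Finite :=
    Set.Finite.biUnion (Finset.finite_toSet _) fun p _ => (NZ_finite o (7 * k) p).image _
  have h1 : (PN o k N).ncard ≤ ∑ p ∈ Finset.range N, (NZ o (7 * k) p).ncard := by
    refine (Set.ncard_le_ncard hsub hfin).trans ?_
    refine (Finset.set_ncard_biUnion_le _ _).trans ?_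
    exact Finset.sum_le_sum fun p _ => Set.ncard_image_le (NZ_finite o (7 * k) p)
  have h2 : ((PN o k N).ncard : ℝ) ≤ ∑ p ∈ Finset.range N, ((NZ o (7 * k) p).ncard : ℝ) := by
    exact_mod_cast h1
  refine h2.trans ?_
  have h3 : ∀ p ∈ Finset.range N, ((NZ o (7 * k) p).ncard : ℝ) ≤ C * l ^ N := by
    intro p hp
    refine (hW p).trans ?_
    exact mul_le_mul_of_nonneg_left
      (pow_le_pow_right₀ hl (Finset.mem_range.1 hp).le) (by linarith)
  refine (Finset.sum_le_sum h3).trans ?_
  rw [Finset.sum_const, Finset.card_range, nsmul_eq_mul]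
  exact le_of_eq (by ring)

end Pool.Agent.WFS.Lab
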