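import Mathlib

/-!
# WFS module C: an equivariant bijection from equal numbers of points of each period

`S ⊆ X` and `T ⊆ Y` finite sets, `s : X → X` maps `S` to `S` and every point of `S` is periodic under `s`, the same
for `T` and `t`; if for every `j` the sets of points with minimal period `j` have the same number of elements, there
is an equivariant bijection.

Proof: induction on the number of elements of `S`. If `S` is empty so is `T`. Otherwise choose `x ∈ S` with minimal
period `j`; there is `y ∈ T` with minimal period `j`; map the orbit of `x` to the orbit of `y` by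
`s^[i] x ↦ t^[i] y`, remove both orbits (every point of an orbit has minimal period `j`, both orbits have `j`
elements), apply the induction hypothesis.
-/

set_option autoImplicit false

namespace Pool.Agent.WFS.Lab

theorem exists_equivariant {X Y : Type} (s : X → X) (t : Y → Y) (S : Set X) (T : Set Y)
    (hS : S.Finite) (hT : T.Finite) (hs : ∀ x ∈ S, s x ∈ S) (ht : ∀ y ∈ T, t y ∈ T)
    (hs' : ∀ x ∈ S, ∃ p, 0 < p ∧ s^[p] x = x) (ht' : ∀ y ∈ T, ∃ p, 0 < p ∧ t^[p] y = y)
    (h : ∀ j, {x ∈ S | Function.minimalPeriod s x = j}.ncard =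
      {y ∈ T | Function.minimalPeriod t y = j}.ncard) :
    ∃ (Θ : X → Option Y) (Ψ : Y → Option X),
      (∀ x ∈ S, ∃ y ∈ T, Θ x = some y ∧ Ψ y = some x ∧ Θ (s x) = some (t y)) ∧
      (∀ y ∈ T, ∃ x ∈ S, Ψ y = some x ∧ Θ x = some y) := by
  sorry

/-- equal numbers of fixed points of the iterates below `N` give equal numbers of points of each minimal period, if
all points of both sets have a period below `N`. Proof: strong induction on `j < N`: the fixed points of `s^[j]` in
`S` are the points whose minimal period divides `j`; for `j ≥ N` and for `j = 0` both sets are empty. -/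
theorem ncard_minimalPeriod {X Y : Type} (s : X → X) (t : Y → Y) (S : Set X) (T : Set Y) (N : ℕ)
    (hS : S.Finite) (hT : T.Finite)
    (hs' : ∀ x ∈ S, ∃ p, 0 < p ∧ p < N ∧ s^[p] x = x)
    (ht' : ∀ y ∈ T, ∃ p, 0 < p ∧ p < N ∧ t^[p] y = y)
    (h : ∀ m, 1 ≤ m → m < N → {x ∈ S | s^[m] x = x}.ncard = {y ∈ T | t^[m] y = y}.ncard) (j : ℕ) :
    {x ∈ S | Function.minimalPeriod s x = j}.ncard =
      {y ∈ T | Function.minimalPeriod t y = j}.ncard := by
  sorry

end Pool.Agent.WFS.Lab
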