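import Pool.Agent.WFS.Lab.Run

/-!
# WFS module C: goodness (C5)

For a word `w ≠ []` of length `< N` some power of `wf F w` is constant: it is enough that `wf F w` has at most one
periodic point (lemma `const_of_unique`). So let `q` be a periodic point, `X` the periodic sequence `w w w ..`,
`r t = wf F (seg X t) q`; `r` is periodic with a period `p` which is also a period of `X`. Let
`y t = pm (r t) (X t)` (default letter) and `v t = fin f (r t)`; then `r (t+1) = dl (y t) (r t)`,
`(v (t+1)) = f (y t) (v t)`, and `(r t).1 = sfx (v (t-M), seg (sh (t-M) y) M)` for `t ≥ M = 2 L + R`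
(`Pats.wf_dl`, `Pats.sfx_long`): `q` is determined by `v` and `y`.

Case 1 (captured): `Sp (r t) (sh t X)` for some `t`. By `F_on` for all later `t`, by periodicity for all `t`. A detour
state does not stay a detour state for ever (its index grows, `isR_length`), and run states stay run states
(`F_run`); so by periodicity all `r t` are run states, `(r t).2 = seg x L`, `E = sh t X`, where
`E i = b (sg^[i] (zz (r t).1 x))`. Then `X ∈ PN` and `zz = Ψ (sh t X)`: either `zz ∈ PA` and `E = Θ zz`, or `zz` is long
and `E` contains `o^k`, but its minimal period `g` divides `c` (`hbL`) and `g ≤ |w| < N ≤ c`, so `2 g ≤ c`; `o^k` at `i`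
is repeated at `i + g`: if `g ≥ k` the default sequence `zz.2` contains `o^k`; if `g < k`, `X = o o o ..` and `zz.2`
contains `o^(c-k)`; both impossible (`zz.2 ∈ PN` avoids `o^k`, `c ≥ N ≥ 3 k`). Hence `y t = (Ψ (sh t X)).2 0`,
`v t = (Ψ (sh t X)).1`: determined by `X`.

Case 2 (never captured). If a state is special, there is a first time at which the label differs from the expected
one; by `F_off` the next state is short and free, or an exit state `(v, seg (ta v x) (L+1))` with expected sequence
`sh (L+1) x ≠ sh (t+1) X`; from an exit state the next difference comes while the state is still a detour state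
(a detour is longer than `2 N`, second alternative of `sfx_det`, and `PN_ext` / `fw` would give equality), so after it
the state is short and free. So if there is a special time there is also a time `t0` with a free state of length
`≤ R + 4 N + 1`; let `t1 > t0` be the next special time. `r t1` has length exactly `L` (`F_free`), `t1 - t0 ≥ 2 N`, the
last `2 N` letters of the run are letters of `X`, hence the run is the one of `X`: `(r t1).2 = seg x L`, `sh L x = sh t1 X`.
At the first later time `t` with `X t` different from the expected label `b z_t` the label `X t` is `x' L`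
(`z_t.2 = sh t X`), so the state takes the exit edge and its expected sequence is `sh (t+1) X`: captured, contradiction.
So all states are free, all labels are default labels, `y = X`; for `X ∈ PN` the length would grow to `L`; so `X`
contains `o^k`, and `v` is the unique periodic `f`-path with labels `X`: determined by `X`.

If `X` avoids `o^k` all periodic points are in case 1, otherwise all are in case 2; so there is at most one.
-/

set_option autoImplicit false

namespace Pool.Agent.WFS.Lab

open Pool.Agent.WFS

theorem const_of_unique {Q : Type} [Finite Q] [Nonempty Q] (g : Q → Q)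
    (h : ∀ q q' : Q, (∃ p, 0 < p ∧ g^[p] q = q) → (∃ p, 0 < p ∧ g^[p] q' = q') → q = q') :
    ∃ m c, ∀ q, g^[m] q = c := by
  sorry

namespace Lb

variable {α V : Type} [Fintype V] [DecidableEq α] (D : Lb α V)

theorem unique_periodic (w : List α) (hw : w ≠ []) (hN : w.length < D.N) (q q' : D.pats.St)
    (hq : ∃ p, 0 < p ∧ (wf D.F w)^[p] q = q) (hq' : ∃ p, 0 < p ∧ (wf D.F w)^[p] q' = q') :
    q = q' := by
  sorry

/-- GOODNESS -/
theorem good [Finite D.pats.St] [Nonempty V] (w : List α) (hw : w ≠ []) (hN : w.length < D.N) :
    ∃ m c, ∀ q, (wf D.F w)^[m] q = c := by
  have : Nonempty D.pats.St := ⟨⟨(Classical.arbitrary V, []), D.pats.nil _⟩⟩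
  exact const_of_unique _ fun q q' h h' => D.unique_periodic w hw hN q q' h h'

end Lb

end Pool.Agent.WFS.Lab
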