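import Pool.Agent.WFS.Lab.Run

/-!
# WFS module C: the killing word (C6): `F` of `o^(7 k)` is constant

Labels `o` all the time, states `r t`. `Sp q E` implies `E j ≠ o` for some `j < 3 k` (for `E ∈ PN` even `j < k`; for a
long point `z`: in every window of `3 k` positions there are `k` consecutive positions outside the blocks, where the
letters are those of `z.2`, which avoids `o^k`; blocks are `c ≥ N ≥ 3 k` apart). For detours `E = sh (L+i) x ∈ PN`.
So from a special state after at most `3 k` steps the state is short and free, or an exit state (`i = 1`) which is left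
within `k` steps, when it is still a detour state (second alternative of `sfx_det` needs `L ≤ i + 2 N`), to a short free
state. From a free state of arbitrary length: a run cannot end with `o^k`, so a full run is reached within `k - 1` steps
or not at all in the next steps; if the state is free for `k` steps its length is `≤ k - 1` afterwards. Altogether: at
some time `t0 ≤ 5 k` the state is free of length `≤ R + 4 N + 1 + k` or so, and it is free during the next `2 k` steps.
At `t0 + k` the vertex is `c0` (`hf0`) and it stays `c0` (`f o c0 = c0`). At every time `t ≥ t0 + 2 k` as long as the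
states are free the state is the longest pattern which is a suffix of `(c0, o^k)`, i.e. `sfx (c0, o^k)`: its length is
`≤ k - 1`. Show that the states stay free (length `≤ k - 1`, then `F_free`), and take time `7 k`.
-/

set_option autoImplicit false

namespace Pool.Agent.WFS.Lab

open Pool.Agent.WFS

namespace Lb

variable {α V : Type} [Fintype V] [DecidableEq α] (D : Lb α V)

private theorem kill_per {β : Type} {c : ℕ} {g : ℕ → β} (h : ∀ i, g (i + c) = g i) (T m : ℕ) :
    g (m + T * c) = g m := by
  induction T with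
  | zero => simp
  | succ T ih => rw [Nat.succ_mul, ← add_assoc, h, ih]

private theorem kill_theta (z : V × (ℕ → α)) (hz : z ∈ PA D.f D.o D.k D.N) (i : ℕ) :
    D.Θ ((sg D.f)^[i] z) = sh i (D.Θ z) := by
  induction i with
  | zero => rw [sh_zero]; rfl
  | succ i ih =>
    rw [Function.iterate_succ_apply', (D.hΘ _ (PA_sg hz i)).2.2, ih, sh_sh]

private theorem kill_ne {q : V × List α} {E : ℕ → α} (h : D.Sp q E) :
    ∃ j < 3 * D.k, E j ≠ D.o := by
  have hk := D.hk
  have hN := D.hN
  rcases h with ⟨x, hx, hq, rfl⟩ | ⟨x, hx, i, hi, hb, hq, hr, rfl⟩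
  · set z := D.zz q.1 x with hz
    have hzC : z ∈ Cy D.f D.o D.k D.N := D.zz_mem_Cy q.1 hx
    by_cases hP : z ∈ PA D.f D.o D.k D.N
    · obtain ⟨j, hj, hj2⟩ := (D.hΘ z hP).1.2 0
      refine ⟨j, by omega, ?_⟩
      show D.b ((sg D.f)^[j] z) ≠ D.o
      rw [D.hbA _ (PA_sg hP j), D.kill_theta z hP j]
      simpa using hj2
    · obtain ⟨c, hc, hfix, i0, hb1, hb2⟩ := D.hbL z hzC hP
      have hEper : ∀ m, D.b ((sg D.f)^[m + c] z) = D.b ((sg D.f)^[m] z) := by
        intro m
        rw [Function.iterate_add_apply, hfix]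
      have hzper : ∀ m, z.2 (m + c) = z.2 m := PerS_of_sg hfix
      have hi0 : i0 ≤ i0 * c := Nat.le_mul_of_pos_right _ (by omega)
      set r0 := (i0 * c - i0) % c with hr0
      have hr0c : r0 < c := Nat.mod_lt _ (by omega)
      have hdiv : i0 * c = i0 + r0 + (i0 * c - i0) / c * c := by
        have h1 := Nat.mod_add_div (i0 * c - i0) c
        rw [mul_comm c] at h1
        omega
      have hg : ∀ {β : Type} (g : ℕ → β), (∀ i, g (i + c) = g i) → ∀ m,
          g m = g (i0 + (r0 + m)) := by
        intro β g hg m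
        have e1 := kill_per hg i0 m
        have e2 := kill_per hg ((i0 * c - i0) / c) (i0 + (r0 + m))
        have e3 : m + i0 * c = i0 + (r0 + m) + (i0 * c - i0) / c * c := by omega
        rw [← e1, ← e2, ← e3]
      have hE1 : ∀ m, D.b ((sg D.f)^[m] z) = D.b ((sg D.f)^[i0 + (r0 + m)] z) :=
        hg (fun m => D.b ((sg D.f)^[m] z)) hEper
      have hz1 : ∀ m, z.2 m = z.2 (i0 + (r0 + m)) := hg z.2 hzper
      have hA : ∀ m, D.k ≤ r0 + m → r0 + m < c → D.b ((sg D.f)^[m] z) = z.2 m := by
        intro m h1 h2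
        rw [hE1, hz1, hb2 _ h1 h2]
      have hB : ∀ m s, r0 + m = c + s → D.k ≤ s → s < c → D.b ((sg D.f)^[m] z) = z.2 m := by
        intro m s h1 h2 h3
        rw [hE1, hz1, h1, show i0 + (c + s) = (i0 + s) + c by omega, hEper, hzper, hb2 _ h2 h3]
      have hm0 : ∃ m0 ≤ 2 * D.k, ∀ j < D.k, D.b ((sg D.f)^[m0 + j] z) = z.2 (m0 + j) := by
        rcases Nat.lt_or_ge r0 D.k with h1 | h1
        · refine ⟨D.k - r0, by omega, fun j hj => hA _ (by omega) (by omega)⟩
        · rcases Nat.lt_or_ge c (r0 + D.k) with h2 | h2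
          · refine ⟨c - r0 + D.k, by omega, fun j hj => hB _ (D.k + j) (by omega) (by omega)
              (by omega)⟩
          · refine ⟨0, by omega, fun j hj => hA _ (by omega) (by omega)⟩
      obtain ⟨m0, hm1, hm2⟩ := hm0
      obtain ⟨j, hj, hj2⟩ := hzC.1.2 m0
      refine ⟨m0 + j, by omega, ?_⟩
      show D.b ((sg D.f)^[m0 + j] z) ≠ D.o
      rw [hm2 j hj]
      exact hj2
  · obtain ⟨j, hj, hj2⟩ := hx.2 (D.L + i)
    exact ⟨j, by omega, hj2⟩

/-- the state after `t` letters `o` -/
private noncomputable def st (t : ℕ) (q : D.pats.St) : D.pats.St :=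
  wf D.F (List.replicate t D.o) q

private theorem st_zero (q : D.pats.St) : D.st 0 q = q := rfl

private theorem st_succ (t : ℕ) (q : D.pats.St) : D.st (t + 1) q = D.F D.o (D.st t q) := by
  unfold st
  rw [List.replicate_succ', wf_concat]

private theorem st_add (s t : ℕ) (q : D.pats.St) : D.st (s + t) q = D.st t (D.st s q) := by
  unfold st
  rw [List.replicate_add, wf_append]

private theorem kill_on {q : D.pats.St} {E : ℕ → α} (h : D.Sp q.1 E) (m : ℕ)
    (hm : ∀ j < m, E j = D.o) : D.Sp (D.st m q).1 (sh m E) := by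
  induction m with
  | zero => rw [sh_zero]; exact h
  | succ m ih =>
    have h1 := ih fun j hj => hm j (by omega)
    have h2 := D.F_on (D.st m q) h1
    have h3 : sh m E 0 = D.o := by
      rw [sh_apply]
      exact hm m (by omega)
    rw [h3, sh_sh, ← D.st_succ] at h2
    exact h2

/-- detour states -/
private def Det (q : V × List α) (x : ℕ → α) (i : ℕ) : Prop :=
  x ∈ D.P ∧ 1 ≤ i ∧ D.b (D.zz q.1 x) ≠ x D.L ∧ q.2 = seg (D.ta q.1 x) (D.L + i) ∧
    ∀ j, 1 ≤ j → j ≤ i → ¬ D.Run D.L (sh j (D.ta q.1 x))

private theorem det_on {q : D.pats.St} {x : ℕ → α} {i : ℕ} (h : D.Det q.1 x i)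
    (hi : i + 2 * D.N < D.L) : D.Det (D.F (x (D.L + i)) q).1 x (i + 1) := by
  obtain ⟨hx, h1, h2, h3, h4⟩ := h
  have hlen : q.1.2.length = D.L + i := by rw [h3]; simp
  have hxs : D.xs q.1 = x := by
    refine D.xs_eq q.1.1 hx ?_
    rw [h3, seg_take _ (by omega : D.L ≤ D.L + i)]
    exact D.seg_ta le_rfl
  have hpm : D.pm q.1 (x (D.L + i)) = D.ta q.1.1 x (D.L + i) := by
    unfold pm
    rw [if_neg (by omega), hxs, hlen, Equiv.swap_apply_left, D.ta_ge]
    congr 1
    omega
  have hF : (D.F (x (D.L + i)) q).1 =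
      D.pats.sfx D.f (q.1.1, seg (D.ta q.1.1 x) (D.L + i) ++ [D.ta q.1.1 x (D.L + i)]) := by
    show D.pats.sfx D.f (app q.1 (D.pm q.1 (x (D.L + i)))) = _
    rw [hpm]
    unfold app
    rw [h3]
  rcases D.sfx_det q.1.1 hx h1 h2 h4 with h5 | h5
  · rw [hF, h5.2]
    refine ⟨hx, by omega, h2, rfl, fun j hj hji => ?_⟩
    rcases Nat.lt_or_ge i j with h6 | h6
    · have : j = i + 1 := by omega
      rw [this]
      exact h5.1
    · exact h4 j hj h6
  · omega

private theorem kill_leave {q : D.pats.St} {E : ℕ → α} (h : D.Sp q.1 E) :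
    ∃ t ≤ 4 * D.k, (D.st t q).1.2.length ≤ D.R + 4 * D.N + 1 := by
  classical
  have hk := D.hk
  have hN := D.hN
  have hL := D.hL2
  have hex : ∃ j, E j ≠ D.o := by
    obtain ⟨j, _, hj⟩ := D.kill_ne h
    exact ⟨j, hj⟩
  have hj3 : Nat.find hex < 3 * D.k := by
    obtain ⟨j, h1, h2⟩ := D.kill_ne h
    exact (Nat.find_min' hex h2).trans_lt h1
  have hjne : E (Nat.find hex) ≠ D.o := Nat.find_spec hex
  have hjlt : ∀ i < Nat.find hex, E i = D.o := fun i hi => not_not.1 (Nat.find_min hex hi)
  generalize Nat.find hex = j at *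
  have h1 := D.kill_on h j hjlt
  have hne : D.o ≠ sh j E 0 := by
    rw [sh_apply]
    exact hjne.symm
  rcases D.F_off (D.st j q) h1 hne with h2 | ⟨x, hx, h3, h4, h5, h6⟩
  · exact ⟨j + 1, by omega, by rw [D.st_succ]; exact h2⟩
  · rw [← D.st_succ] at h6
    have hlen : (D.st (j + 1) q).1.2.length = D.L + 1 := by rw [h6]; simp
    have hdet : ∃ x', D.Det (D.st (j + 1) q).1 x' 1 := by
      rcases D.Sp_or_free (D.st (j + 1) q) with h7 | ⟨E', h7⟩
      · omega
      · rcases h7 with ⟨x', hx', h8, _⟩ | ⟨x', hx', i, hi, hb, h8, h9, _⟩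
        · rw [h8] at hlen
          simp at hlen
        · have hl : D.L + i = D.L + 1 := by
            rw [h8] at hlen
            simpa using hlen
          have hi1 : i = 1 := by omega
          subst hi1
          exact ⟨x', hx', le_rfl, hb, h8, h9⟩
    obtain ⟨x', hdet⟩ := hdet
    have hex' : ∃ m, x' (D.L + 1 + m) ≠ D.o := by
      obtain ⟨m, _, hm⟩ := hdet.1.2 (D.L + 1)
      exact ⟨m, hm⟩
    have hmk : Nat.find hex' < D.k := by
      obtain ⟨m, h7, h8⟩ := hdet.1.2 (D.L + 1)
      exact (Nat.find_min' hex' h8).trans_lt h7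
    have hmne : x' (D.L + 1 + Nat.find hex') ≠ D.o := Nat.find_spec hex'
    have hmlt : ∀ i < Nat.find hex', x' (D.L + 1 + i) = D.o := fun i hi =>
      not_not.1 (Nat.find_min hex' hi)
    generalize Nat.find hex' = m at *
    have hon : ∀ i ≤ m, D.Det (D.st i (D.st (j + 1) q)).1 x' (1 + i) := by
      intro i
      induction i with
      | zero => intro _; exact hdet
      | succ i ih =>
        intro hi
        have h7 := D.det_on (ih (by omega)) (by omega)
        rw [show D.L + (1 + i) = D.L + 1 + i by omega, hmlt i (by omega), ← D.st_succ] at h7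
        exact h7
    have h7 := hon m le_rfl
    have hne2 : D.o ≠ sh (D.L + (1 + m)) x' 0 := by
      rw [sh_apply, show D.L + (1 + m) + 0 = D.L + 1 + m by omega]
      exact hmne.symm
    have hSp : D.Sp (D.st m (D.st (j + 1) q)).1 (sh (D.L + (1 + m)) x') :=
      Or.inr ⟨x', h7.1, 1 + m, h7.2.1, h7.2.2.1, h7.2.2.2.1, h7.2.2.2.2, rfl⟩
    rcases D.F_off _ hSp hne2 with h8 | ⟨y, _, h9, _⟩
    · refine ⟨j + 1 + (m + 1), by omega, ?_⟩
      rw [D.st_add, D.st_succ]
      exact h8
    · have h10 := h7.2.2.2.1
      rw [h9] at h10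
      have h11 := congrArg List.length h10
      simp at h11

/-- a run does not end with `o^k` -/
private theorem kill_no {q : D.pats.St} (hl : q.1.2.length ≤ D.L) {w : List α}
    (hw : q.1.2 = w ++ List.replicate D.k D.o) : False := by
  have hk := D.hk
  rcases q.2 with ⟨_, h2⟩ | ⟨x, hx, i, h1, _, h3, _⟩
  · rcases h2 with h2 | ⟨x, hx, h2⟩
    · rw [h2] at hw
      have := congrArg List.length hw
      simp at this
      omega
    · have hlen : q.1.2.length = w.length + D.k := by rw [hw]; simp
      have h3 : seg x (w.length + D.k) = w ++ List.replicate D.k D.o := by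
        rw [← hw, ← hlen]
        exact h2.symm
      rw [seg_add] at h3
      have h4 := (List.append_inj h3 (by simp)).2
      obtain ⟨j, hj, hj2⟩ := hx.2 w.length
      refine hj2 ?_
      have h5 := seg_getElem (sh w.length x) D.k j (by simpa using hj)
      have h6 : (seg (sh w.length x) D.k)[j]? = (List.replicate D.k D.o)[j]? := by rw [h4]
      rw [List.getElem?_eq_getElem (by simpa using hj), h5,
        List.getElem?_eq_getElem (by simpa using hj), List.getElem_replicate] at h6
      exact Option.some.inj h6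
  · have h4 := congrArg List.length h3
    simp at h4
    omega

/-- free evolution -/
private theorem kill_free {q : D.pats.St} {T : ℕ}
    (h : ∀ t < T, (D.st t q).1.2.length < D.L) :
    (D.st T q).1 = D.pats.sfx D.f (q.1.1, q.1.2 ++ List.replicate T D.o) := by
  rw [← D.pats.wf_dl]
  congr 1
  induction T with
  | zero => rfl
  | succ T ih =>
    have h1 := ih fun t ht => h t (by omega)
    rw [D.st_succ, (D.F_free _ (h T (by omega)) D.o).1, h1, List.replicate_succ', wf_concat]

private theorem kill_len {q : D.pats.St} {T : ℕ} (hT : D.k ≤ T)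
    (h : ∀ t < T, (D.st t q).1.2.length < D.L) : (D.st T q).1.2.length < D.k := by
  by_contra hcon
  have hk := D.hk
  obtain ⟨T', rfl⟩ : ∃ T', T = T' + 1 := ⟨T - 1, by omega⟩
  have hle : (D.st (T' + 1) q).1.2.length ≤ D.L := by
    have h1 := h T' (by omega)
    have h2 := (D.F_free _ h1 D.o).2
    rw [← D.st_succ] at h2
    omega
  have hfr := D.kill_free h
  have h3 : (D.st (T' + 1) q).1.2 = (q.1.2 ++ List.replicate (T' + 1) D.o).drop
      (D.pats.idx D.f (q.1.1, q.1.2 ++ List.replicate (T' + 1) D.o)) := by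
    rw [hfr]
    rfl
  set u := q.1.2 ++ List.replicate (T' + 1) D.o with hu
  set i := D.pats.idx D.f (q.1.1, u) with hi
  have hul : u.length = q.1.2.length + (T' + 1) := by rw [hu]; simp
  have hlen : (D.st (T' + 1) q).1.2.length = u.length - i := by rw [h3, List.length_drop]
  have hik : i ≤ u.length - D.k := by omega
  refine D.kill_no hle (w := (u.take (u.length - D.k)).drop i) ?_
  rw [h3]
  have h4 : u.drop (u.length - D.k) = List.replicate D.k D.o := by
    have e1 : u = (q.1.2 ++ List.replicate (T' + 1 - D.k) D.o) ++ List.replicate D.k D.o := by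
      rw [hu, List.append_assoc, ← List.replicate_add]
      congr 2
      omega
    have e2 : (q.1.2 ++ List.replicate (T' + 1 - D.k) D.o).length =
        q.1.2.length + (T' + 1 - D.k) := by simp
    have e3 : u.length - D.k = (q.1.2 ++ List.replicate (T' + 1 - D.k) D.o).length := by omega
    rw [e3, e1, List.drop_left]
  have h5 : u = u.take (u.length - D.k) ++ List.replicate D.k D.o := by
    conv_lhs => rw [← List.take_append_drop (u.length - D.k) u, h4]
  conv_lhs => rw [h5]
  have h6 : i ≤ (u.take (u.length - D.k)).length := by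
    rw [List.length_take]
    exact le_min hik (hik.trans (Nat.sub_le _ _))
  exact List.drop_append_of_le_length h6

private theorem kill_stay {q : D.pats.St} (h : ∀ t < D.k, (D.st t q).1.2.length < D.L) (t : ℕ) :
    (D.st t q).1.2.length < D.L := by
  have hk := D.hk
  have hL := D.hL2
  induction t using Nat.strong_induction_on with
  | _ t ih =>
    rcases Nat.lt_or_ge t D.k with h1 | h1
    · exact h t h1
    · have := D.kill_len h1 ih
      omega

private theorem kill_short {q : D.pats.St} (h : q.1.2.length ≤ D.R + 4 * D.N + 1) (t : ℕ) :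
    (D.st t q).1.2.length < D.L := by
  have hk := D.hk
  have hL := D.hL2
  have hN := D.hN
  refine D.kill_stay (fun s hs => ?_) t
  have h1 : ∀ s ≤ D.k, (D.st s q).1.2.length ≤ D.R + 4 * D.N + 1 + s := by
    intro s
    induction s with
    | zero => intro _; simpa [st_zero] using h
    | succ s ih =>
      intro hs
      have h2 := ih (by omega)
      have h3 := (D.F_free (D.st s q) (by omega) D.o).2
      rw [← D.st_succ] at h3
      omega
  have := h1 s hs.le
  omega

private theorem kill_all (q : D.pats.St) :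
    ∃ t ≤ 5 * D.k, ∀ s, (D.st (t + s) q).1.2.length < D.L := by
  classical
  have hk := D.hk
  by_cases h : ∀ t < D.k, (D.st t q).1.2.length < D.L
  · exact ⟨0, by omega, fun s => by rw [zero_add]; exact D.kill_stay h s⟩
  · push Not at h
    obtain ⟨t0, ht0, h0⟩ := h
    rcases D.Sp_or_free (D.st t0 q) with h1 | ⟨E, hE⟩
    · omega
    · obtain ⟨t1, ht1, h2⟩ := D.kill_leave hE
      refine ⟨t0 + t1, by omega, fun s => ?_⟩
      rw [D.st_add, D.st_add]
      exact D.kill_short h2 s

theorem kill : ∃ c, ∀ q, wf D.F (List.replicate (7 * D.k) D.o) q = c := by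
  have hk := D.hk
  refine ⟨⟨D.pats.sfx D.f (D.c0, List.replicate D.k D.o), D.pats.sfx_mem D.f _⟩, fun q => ?_⟩
  obtain ⟨t, ht, h⟩ := D.kill_all q
  have hT : 7 * D.k = t + (7 * D.k - t) := by omega
  show D.st (7 * D.k) q = _
  rw [hT, D.st_add]
  set q' := D.st t q with hq'
  set T := 7 * D.k - t with hTdef
  have hT2 : 2 * D.k ≤ T := by omega
  have hfree : ∀ s < T, (D.st s q').1.2.length < D.L := fun s _ => by
    rw [hq', ← D.st_add]
    exact h s
  apply Subtype.ext
  show (D.st T q').1 = D.pats.sfx D.f (D.c0, List.replicate D.k D.o)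
  have hlen := D.kill_len (by omega : D.k ≤ T) hfree
  have hfr := D.kill_free hfree
  rw [hfr] at hlen
  rw [hfr]
  set u := q'.1.2 ++ List.replicate T D.o with hu
  have hul : u.length = q'.1.2.length + T := by rw [hu]; simp
  have hidx : u.length - D.k ≤ D.pats.idx D.f (q'.1.1, u) := by
    have h1 : (D.pats.sfx D.f (q'.1.1, u)).2.length =
        u.length - D.pats.idx D.f (q'.1.1, u) := by
      rw [Pats.sfx, suf_length]
    omega
  rw [← D.pats.sfx_suf D.f hidx]
  congr 1
  have h4 : u = (q'.1.2 ++ List.replicate (T - D.k) D.o) ++ List.replicate D.k D.o := by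
    rw [hu, List.append_assoc, ← List.replicate_add]
    congr 2
    omega
  have h5 : u.length - D.k = (q'.1.2 ++ List.replicate (T - D.k) D.o).length := by
    have e1 : (q'.1.2 ++ List.replicate (T - D.k) D.o).length =
        q'.1.2.length + (T - D.k) := by simp
    omega
  unfold suf
  refine Prod.ext ?_ ?_
  · show wf D.f (u.take (u.length - D.k)) q'.1.1 = D.c0
    rw [h5, h4, List.take_left]
    have h6 : T - D.k = (T - 2 * D.k) + D.k := by omega
    rw [h6, List.replicate_add, ← List.append_assoc, wf_append]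
    exact D.hf0 _
  · show u.drop (u.length - D.k) = List.replicate D.k D.o
    rw [h5, h4, List.drop_left]

end Lb

end Pool.Agent.WFS.Lab
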