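import Pool.Agent.WFS.Lab.Auto

/-!
# WFS module C: labellings of a matrix with constant column sums (C0, first part)

`pow_am`: `(am f ^ m) i j` = number of words `u` of length `m` with `wf f u j = i` (induction on `m`, first or last
letter). `exists_label`: at every vertex `j` a bijection between the letters and the edges which leave `j`
(`Σ i, Fin (A i j)`, of cardinality `n`) with `0 ↦` an edge to `g j`.
-/

set_option autoImplicit false

namespace Pool.Agent.WFS.Lab

open Pool.Agent.WFS

theorem pow_am {α V : Type} [Fintype α] [DecidableEq α] [Fintype V] [DecidableEq V]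
    (f : α → V → V) (m : ℕ) (i j : V) :
    (am f ^ m) i j = Fintype.card {u : Fin m → α // wf f (List.ofFn u) j = i} := by
  sorry

/-- a labelling with prescribed edges for one letter -/
theorem exists_label {V : Type} [Fintype V] [DecidableEq V] {n : ℕ} (hn : 1 ≤ n)
    (A : Matrix V V ℕ) (hcol : ∀ j, ∑ i, A i j = n) (g : V → V) (hg : ∀ j, 0 < A (g j) j) :
    ∃ f : Fin n → V → V, am f = A ∧ f ⟨0, hn⟩ = g := by
  sorry

end Pool.Agent.WFS.Lab
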