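import Pool.Agent.WFS.Lab.Run
import Pool.Agent.WFS.Lab.Cnt

/-!
# WFS module C: sizes (C7)

`NZ o m d`: words of length `d` without `m` consecutive letters `o`. Assume `#(NZ o (7k) d) ≤ C λ^d` for all `d`
(`C ≥ 1`, `λ ≥ 1`). Patterns of length `l ≤ N`: at most `#V · C λ^l` (start vertex and word, the word is the beginning of
a sequence of `PN`, which avoids `o^k`, and `k ≤ 7 k`). `#PN ≤ N C λ^N` (a sequence of `PN` is determined by a period
`p < N` and its first `p` letters). Patterns of length `l > N`: determined by the start vertex, the sequence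
`x ∈ PN` and `l` (free / run: `seg x l`; detour: `seg (ta v x) l`), so at most `#V · N C λ^N`.

`card_states`: sum over `l ≤ 2 L + R`.

`near`: for fixed `q` the map from label words `x` of length `d` to default words `y` is injective (`F` is a relabelling
of `dl`), `wf F x q = wf dl y q = sfx (q.1, q.2 ++ y)`. For a target `q'` with `l = |q'| ≤ d` the last `l` letters of `y` are
`q'.2`, so `y` (and `x`) is determined by the first `d - l` letters of `x`, which are in `NZ`: at most `C λ^(d-l)` words `x`.
For `l > d`, `y` is determined (last `d` letters of `q'.2`): at most one word. Sum over `q'` by length.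
-/

set_option autoImplicit false

namespace Pool.Agent.WFS.Lab

open Pool.Agent.WFS

private theorem seg_NZ {α : Type} {o : α} {k : ℕ} (hk : 1 ≤ k) {x : ℕ → α} (hx : Av o k x)
    (j : ℕ) : seg x j ∈ NZ o (7 * k) j := by
  refine ⟨seg_length x j, ?_⟩
  rintro ⟨s, t, hst⟩
  obtain ⟨m, hm, hne⟩ := hx s.length
  apply hne
  have hlen : s.length + 7 * k + t.length = j := by
    have h := congrArg List.length hst
    rw [List.length_append, List.length_append, List.length_replicate, seg_length] at h
    exact h
  have h1 : (seg x j)[s.length + m]? = some (x (s.length + m)) := by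
    rw [List.getElem?_eq_getElem (by rw [seg_length]; omega), seg_getElem]
  have h2 : (s ++ List.replicate (7 * k) o ++ t)[s.length + m]? = some o := by
    rw [List.append_assoc, List.getElem?_append_right (by omega),
      List.getElem?_append_left (by rw [List.length_replicate]; omega), List.getElem?_replicate,
      if_pos (by omega)]
  rw [← hst, h2] at h1
  exact (Option.some.inj h1).symm

private theorem take_NZ {α : Type} {o : α} {m d : ℕ} {u : List α} (hu : u ∈ NZ o m d) {j : ℕ}
    (hj : j ≤ d) : u.take j ∈ NZ o m j := by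
  obtain ⟨h1, h2⟩ := hu
  refine ⟨by rw [List.length_take, h1]; omega, fun h => h2 ?_⟩
  exact h.trans (List.take_prefix j u).isInfix

private theorem nil_NZ {α : Type} {o : α} {k : ℕ} (hk : 1 ≤ k) : ([] : List α) ∈ NZ o (7 * k) 0 := by
  refine ⟨rfl, fun h => ?_⟩
  have h1 := h.length_le
  rw [List.length_replicate] at h1
  simp at h1
  omega

namespace Lb

variable {α V : Type} [Fintype V] [DecidableEq V] [DecidableEq α] (D : Lb α V)

theorem finite_St [Finite α] : Finite D.pats.St := by
  have h : (D.pats.S).Finite := by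
    refine Set.Finite.subset ((Set.finite_univ (α := V)).prod
      (List.finite_length_le α (2 * D.L + D.R))) ?_
    intro q hq
    exact ⟨Set.mem_univ _, D.pats_length hq⟩
  exact h.to_subtype

private theorem fin_S [Finite α] : (D.pats.S).Finite := by
  have := D.finite_St
  exact Set.toFinite _

/-- the number of patterns of length `j` -/
theorem card_len [Fintype α] (C l : ℝ) (hC : 1 ≤ C) (hl : 1 ≤ l)
    (hW : ∀ d, ((NZ D.o (7 * D.k) d).ncard : ℝ) ≤ C * l ^ d) (j : ℕ) :
    ({q ∈ D.pats.S | q.2.length = j}.ncard : ℝ) ≤ Fintype.card V * D.N * C * l ^ min j D.N := by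
  have hk := D.hk
  have hN := D.hN
  have hL2 := D.hL2
  have hVc : (Set.univ : Set V).ncard = Fintype.card V := by
    rw [Set.ncard_univ, Nat.card_eq_fintype_card]
  rcases Nat.lt_or_ge D.N j with hj | hj
  · -- long patterns
    have hsub : {q ∈ D.pats.S | q.2.length = j} ⊆
        (fun p : V × (ℕ → α) => (p.1, seg (if j ≤ D.L then p.2 else D.ta p.1 p.2) j)) ''
          ((Set.univ : Set V) ×ˢ PN D.o D.k D.N) := by
      rintro ⟨v, u⟩ ⟨hq, hlen⟩
      have hlen' : u.length = j := hlen
      rcases hq with ⟨h1, h2⟩ | ⟨x, hx, i, h1, h2, h3, h4⟩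
      · have h1' : u.length ≤ D.L := h1
        rcases h2 with h2 | ⟨x, hx, h2⟩
        · have h2' : u = [] := h2
          rw [h2'] at hlen'
          simp at hlen'
          omega
        · have h2' : u = seg x u.length := h2
          refine ⟨(v, x), ⟨Set.mem_univ _, hx⟩, ?_⟩
          have hjL : j ≤ D.L := by omega
          show (v, seg (if j ≤ D.L then x else D.ta v x) j) = (v, u)
          rw [if_pos hjL, ← hlen', ← h2']
      · have h3' : u = seg (D.ta v x) (D.L + i) := h3
        refine ⟨(v, x), ⟨Set.mem_univ _, hx⟩, ?_⟩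
        have hji : j = D.L + i := by
          rw [← hlen', h3', seg_length]
        have hjL : ¬ j ≤ D.L := by omega
        show (v, seg (if j ≤ D.L then x else D.ta v x) j) = (v, u)
        rw [if_neg hjL, hji, ← h3']
    have hfin : ((Set.univ : Set V) ×ˢ PN D.o D.k D.N).Finite :=
      (Set.finite_univ).prod PN_finite
    have h1 : {q ∈ D.pats.S | q.2.length = j}.ncard ≤ Fintype.card V * (PN D.o D.k D.N).ncard := by
      refine le_trans (Set.ncard_le_ncard hsub (hfin.image _)) ?_
      refine le_trans (Set.ncard_image_le hfin) ?_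
      rw [Set.ncard_prod, hVc]
    have h2 : (({q ∈ D.pats.S | q.2.length = j}.ncard : ℕ) : ℝ) ≤
        Fintype.card V * ((PN D.o D.k D.N).ncard : ℝ) := by
      exact_mod_cast h1
    have h3 := PN_card D.o D.k D.N C l hC hl hk hW
    rw [min_eq_right hj.le]
    refine h2.trans ?_
    calc (Fintype.card V : ℝ) * ((PN D.o D.k D.N).ncard : ℝ)
        ≤ Fintype.card V * (D.N * C * l ^ D.N) :=
          mul_le_mul_of_nonneg_left h3 (Nat.cast_nonneg _)
      _ = Fintype.card V * D.N * C * l ^ D.N := by ring
  · -- short patterns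
    have hsub : {q ∈ D.pats.S | q.2.length = j} ⊆
        (Set.univ : Set V) ×ˢ NZ D.o (7 * D.k) j := by
      rintro ⟨v, u⟩ ⟨hq, hlen⟩
      have hlen' : u.length = j := hlen
      refine ⟨Set.mem_univ _, ?_⟩
      show u ∈ NZ D.o (7 * D.k) j
      rcases hq with ⟨h1, h2⟩ | hR
      · rcases h2 with h2 | ⟨x, hx, h2⟩
        · have h2' : u = [] := h2
          rw [h2'] at hlen'
          rw [h2', ← hlen']
          exact nil_NZ hk
        · have h2' : u = seg x u.length := h2
          rw [h2', hlen']
          exact seg_NZ hk hx.2 j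
      · have h5 := (D.isR_length hR).1
        have h6 : D.L < u.length := h5
        omega
    have hfin : ((Set.univ : Set V) ×ˢ NZ D.o (7 * D.k) j).Finite :=
      (Set.finite_univ).prod (NZ_finite D.o (7 * D.k) j)
    have h1 : {q ∈ D.pats.S | q.2.length = j}.ncard ≤
        Fintype.card V * (NZ D.o (7 * D.k) j).ncard := by
      refine le_trans (Set.ncard_le_ncard hsub hfin) ?_
      rw [Set.ncard_prod, hVc]
    have h2 : (({q ∈ D.pats.S | q.2.length = j}.ncard : ℕ) : ℝ) ≤
        Fintype.card V * ((NZ D.o (7 * D.k) j).ncard : ℝ) := by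
      exact_mod_cast h1
    rw [min_eq_left hj]
    refine h2.trans ?_
    have hN1 : (1 : ℝ) ≤ D.N := by
      have : 1 ≤ D.N := by omega
      exact_mod_cast this
    have hpos : (0 : ℝ) ≤ C * l ^ j := mul_nonneg (by linarith) (pow_nonneg (by linarith) _)
    calc (Fintype.card V : ℝ) * ((NZ D.o (7 * D.k) j).ncard : ℝ)
        ≤ Fintype.card V * (C * l ^ j) := mul_le_mul_of_nonneg_left (hW j) (Nat.cast_nonneg _)
      _ ≤ Fintype.card V * (D.N * (C * l ^ j)) :=
          mul_le_mul_of_nonneg_left (le_mul_of_one_le_left hpos hN1) (Nat.cast_nonneg _)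
      _ = Fintype.card V * D.N * C * l ^ j := by ring

theorem card_states [Fintype α] (C l : ℝ) (hC : 1 ≤ C) (hl : 1 ≤ l)
    (hW : ∀ d, ((NZ D.o (7 * D.k) d).ncard : ℝ) ≤ C * l ^ d) :
    (D.pats.S.ncard : ℝ) ≤ (2 * D.L + D.R + 1) * (Fintype.card V * D.N * C * l ^ D.N) := by
  classical
  have hS := D.fin_S
  have h1 : D.pats.S.ncard = ∑ j ∈ Finset.range (2 * D.L + D.R + 1),
      {q ∈ D.pats.S | q.2.length = j}.ncard := by
    rw [Set.ncard_eq_toFinset_card _ hS,
      Finset.card_eq_sum_card_fiberwise (f := fun q : V × List α => q.2.length)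
        (t := Finset.range (2 * D.L + D.R + 1))]
    · refine Finset.sum_congr rfl fun j _ => ?_
      rw [← Set.ncard_coe_finset]
      congr 1
      ext q
      simp
    · intro q hq
      have hq' : q ∈ D.pats.S := by simpa using hq
      have := D.pats_length hq'
      simp
      omega
  rw [h1]
  push_cast
  calc ∑ j ∈ Finset.range (2 * D.L + D.R + 1), ({q ∈ D.pats.S | q.2.length = j}.ncard : ℝ)
      ≤ ∑ _j ∈ Finset.range (2 * D.L + D.R + 1), (Fintype.card V * D.N * C * l ^ D.N : ℝ) := by
        refine Finset.sum_le_sum fun j _ => (D.card_len C l hC hl hW j).trans ?_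
        have h0 : (0 : ℝ) ≤ Fintype.card V * D.N * C :=
          mul_nonneg (by positivity) (by linarith)
        exact mul_le_mul_of_nonneg_left (pow_le_pow_right₀ hl (min_le_right _ _)) h0
    _ = (2 * D.L + D.R + 1) * (Fintype.card V * D.N * C * l ^ D.N) := by
        rw [Finset.sum_const, Finset.card_range, nsmul_eq_mul]
        push_cast
        ring

/-- the default word of a label word -/
private noncomputable def dw : List α → D.pats.St → List α
  | [], _ => []
  | a :: u, q => D.pm q.1 a :: dw u (D.F a q)

private theorem dw_length (u : List α) : ∀ q : D.pats.St, (D.dw u q).length = u.length := by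
  induction u with
  | nil => intro q; rfl
  | cons a u ih => intro q; simp [dw, ih]

private theorem dw_wf (u : List α) : ∀ q : D.pats.St,
    wf D.F u q = wf (D.pats.dl D.f) (D.dw u q) q := by
  induction u with
  | nil => intro q; rfl
  | cons a u ih =>
    intro q
    rw [wf_cons, ih]
    rfl

private theorem dw_take (u : List α) : ∀ (m : ℕ) (q : D.pats.St),
    D.dw (u.take m) q = (D.dw u q).take m := by
  induction u with
  | nil => intro m q; simp [dw]
  | cons a u ih =>
    intro m q
    cases m with
    | zero => simp [dw]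
    | succ m => simp [dw, ih]

private theorem dw_inj (u : List α) : ∀ (u' : List α) (q : D.pats.St),
    D.dw u q = D.dw u' q → u = u' := by
  induction u with
  | nil =>
    intro u' q h
    cases u' with
    | nil => rfl
    | cons a u' => simp [dw] at h
  | cons a u ih =>
    intro u' q h
    cases u' with
    | nil => simp [dw] at h
    | cons a' u' =>
      simp only [dw, List.cons.injEq] at h
      obtain ⟨h1, h2⟩ := h
      have h3 : a = a' := (D.pm q.1).injective h1
      subst h3
      rw [ih u' _ h2]

/-- the end of the default word is determined by the target -/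
private theorem dw_drop {d : ℕ} {x : List α} (hx : x.length = d) {q q' : D.pats.St}
    (h : wf D.F x q = q') :
    (D.dw x q).drop (d - q'.1.2.length) = q'.1.2.drop (q'.1.2.length - d) := by
  have hy : (D.dw x q).length = d := by rw [dw_length, hx]
  rw [dw_wf] at h
  have h1 : q'.1 = D.pats.sfx D.f (q.1.1, q.1.2 ++ D.dw x q) := by
    rw [← h, D.pats.wf_dl]
  have h2 := D.pats.idx_le_length D.f (q.1.1, q.1.2 ++ D.dw x q)
  have h3 : q'.1.2 = (q.1.2 ++ D.dw x q).drop (D.pats.idx D.f (q.1.1, q.1.2 ++ D.dw x q)) := by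
    rw [h1]
    rfl
  generalize D.pats.idx D.f (q.1.1, q.1.2 ++ D.dw x q) = i at h2 h3
  simp only [List.length_append, hy] at h2
  have h4 : q'.1.2.length = q.1.2.length + d - i := by
    rw [h3, List.length_drop, List.length_append, hy]
  rw [h4, h3, List.drop_drop]
  have e : i + (q.1.2.length + d - i - d) = q.1.2.length + (d - (q.1.2.length + d - i)) := by
    omega
  rw [e, ← List.drop_drop, List.drop_left]

/-- the number of words with a given effect -/
theorem card_words [Fintype α] (C l : ℝ) (hC : 1 ≤ C) (hl : 1 ≤ l)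
    (hW : ∀ d, ((NZ D.o (7 * D.k) d).ncard : ℝ) ≤ C * l ^ d) (d : ℕ)
    (A : Finset (List α)) (hA : ∀ x ∈ A, x ∈ NZ D.o (7 * D.k) d) (q q' : D.pats.St) :
    ((A.filter fun x => wf D.F x q = q').card : ℝ) ≤ C * l ^ (d - q'.1.2.length) := by
  refine le_trans ?_ (hW _)
  refine Nat.cast_le.2 ?_
  rw [← Set.ncard_coe_finset]
  refine Set.ncard_le_ncard_of_injOn (fun x : List α => x.take (d - q'.1.2.length)) ?_ ?_
    (NZ_finite _ _ _)
  · intro x hx
    have hx' : x ∈ A ∧ wf D.F x q = q' := by simpa using hx
    exact take_NZ (hA x hx'.1) (Nat.sub_le _ _)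
  · intro x hx x' hx' hxx
    have h1 : x ∈ A ∧ wf D.F x q = q' := by simpa using hx
    have h2 : x' ∈ A ∧ wf D.F x' q = q' := by simpa using hx'
    refine D.dw_inj x x' q ?_
    rw [← List.take_append_drop (d - q'.1.2.length) (D.dw x q),
      ← List.take_append_drop (d - q'.1.2.length) (D.dw x' q),
      D.dw_drop (hA x h1.1).1 h1.2, D.dw_drop (hA x' h2.1).1 h2.2, ← dw_take, ← dw_take]
    have hxx' : x.take (d - q'.1.2.length) = x'.take (d - q'.1.2.length) := hxx
    rw [hxx']

/-- NEARNESS -/
theorem near [Fintype α] [Fintype D.pats.St] (C l : ℝ) (hC : 1 ≤ C) (hl : 1 ≤ l)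
    (hW : ∀ d, ((NZ D.o (7 * D.k) d).ncard : ℝ) ≤ C * l ^ d) (d : ℕ) (hd : D.N ≤ d)
    (A : Finset (List α)) (hA : ∀ x ∈ A, x ∈ NZ D.o (7 * D.k) d) :
    ((∑ q', Finset.univ.sup fun q => (A.filter fun x => wf D.F x q = q').card : ℕ) : ℝ) ≤
      (2 * D.L + D.R + 1) * (Fintype.card V * D.N * C ^ 2) * l ^ d := by
  have hC0 : (0 : ℝ) ≤ C := by linarith
  have hl0 : (0 : ℝ) ≤ l := by linarith
  -- one target
  have h1 : ∀ q' : D.pats.St,
      ((Finset.univ.sup fun q => (A.filter fun x => wf D.F x q = q').card : ℕ) : ℝ) ≤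
        C * l ^ (d - q'.1.2.length) := by
    intro q'
    have h0 : (0 : ℝ) ≤ C * l ^ (d - q'.1.2.length) := mul_nonneg hC0 (pow_nonneg hl0 _)
    refine le_trans ?_ (Nat.floor_le h0)
    norm_cast
    refine Finset.sup_le fun q _ => ?_
    exact Nat.le_floor (D.card_words C l hC hl hW d A hA q q')
  -- targets of a given length
  have h2 : ∀ j, (((Finset.univ : Finset D.pats.St).filter
      fun q' => q'.1.2.length = j).card : ℝ) ≤ Fintype.card V * D.N * C * l ^ min j D.N := by
    intro j
    refine le_trans ?_ (D.card_len C l hC hl hW j)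
    refine Nat.cast_le.2 ?_
    rw [← Set.ncard_coe_finset]
    refine Set.ncard_le_ncard_of_injOn Subtype.val ?_ Subtype.val_injective.injOn
      (D.fin_S.subset fun q hq => hq.1)
    intro q' hq'
    have : q'.1.2.length = j := by simpa using hq'
    exact ⟨q'.2, this⟩
  have hmap : ∀ q' ∈ (Finset.univ : Finset D.pats.St),
      q'.1.2.length ∈ Finset.range (2 * D.L + D.R + 1) := by
    intro q' _
    have := D.pats_length q'.2
    rw [Finset.mem_range]
    omega
  push_cast
  calc ∑ q' : D.pats.St, ((Finset.univ.sup fun q => (A.filter fun x => wf D.F x q = q').card : ℕ) : ℝ)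
      ≤ ∑ q' : D.pats.St, C * l ^ (d - q'.1.2.length) := Finset.sum_le_sum fun q' _ => h1 q'
    _ = ∑ j ∈ Finset.range (2 * D.L + D.R + 1),
          ∑ q' ∈ (Finset.univ : Finset D.pats.St).filter (fun q' => q'.1.2.length = j),
            C * l ^ (d - q'.1.2.length) := (Finset.sum_fiberwise_of_maps_to hmap _).symm
    _ ≤ ∑ _j ∈ Finset.range (2 * D.L + D.R + 1),
          (Fintype.card V * D.N * C ^ 2 * l ^ d : ℝ) := by
        refine Finset.sum_le_sum fun j _ => ?_
        have h3 : ∑ q' ∈ (Finset.univ : Finset D.pats.St).filter (fun q' => q'.1.2.length = j),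
            C * l ^ (d - q'.1.2.length) =
            (((Finset.univ : Finset D.pats.St).filter fun q' => q'.1.2.length = j).card : ℝ) *
              (C * l ^ (d - j)) := by
          rw [← nsmul_eq_mul, ← Finset.sum_const]
          refine Finset.sum_congr rfl fun q' hq' => ?_
          rw [(Finset.mem_filter.1 hq').2]
        rw [h3]
        have h4 : l ^ min j D.N * l ^ (d - j) ≤ l ^ d := by
          rw [← pow_add]
          refine pow_le_pow_right₀ hl ?_
          rcases Nat.le_total j D.N with h | h
          · rw [min_eq_left h]; omega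
          · rw [min_eq_right h]; omega
        calc (((Finset.univ : Finset D.pats.St).filter fun q' => q'.1.2.length = j).card : ℝ) *
              (C * l ^ (d - j))
            ≤ (Fintype.card V * D.N * C * l ^ min j D.N) * (C * l ^ (d - j)) :=
              mul_le_mul_of_nonneg_right (h2 j) (mul_nonneg hC0 (pow_nonneg hl0 _))
          _ = (Fintype.card V * D.N * C ^ 2) * (l ^ min j D.N * l ^ (d - j)) := by ring
          _ ≤ (Fintype.card V * D.N * C ^ 2) * l ^ d :=
              mul_le_mul_of_nonneg_left h4 (by positivity)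
          _ = Fintype.card V * D.N * C ^ 2 * l ^ d := by ring
    _ = (2 * D.L + D.R + 1) * (Fintype.card V * D.N * C ^ 2) * l ^ d := by
        rw [Finset.sum_const, Finset.card_range, nsmul_eq_mul]
        push_cast
        ring

end Lb

end Pool.Agent.WFS.Lab
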