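import Pool.Agent.WFS.Lab.Lbl

/-!
# WFS module C: the default labelling of a unital primitive matrix (C0)

`A` has column sums `n`, some power is positive, `tr A^m = n^m`. There is a labelling `f : Fin n → Fin k → Fin k` with
`am f = A` such that `o^k` is constant for the letter `o = 0`:
`tr A = n > 0` gives a vertex `c0` with `0 < A c0 c0`; for every `j ≠ c0` choose an edge `j → g j` (`0 < A (g j) j`)
which decreases the distance to `c0` (length of the shortest path, exists because some power of `A` is positive),
`g c0 = c0`; then `g^[k] j = c0`. At every vertex `j` choose a bijection between the letters and the edges which leave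
`j` (`Σ i, Fin (A i j)`, of cardinality `n`) with `0 ↦` an edge to `g j`.
`pow_am`: `(am f ^ m) i j` = number of words `u` of length `m` with `wf f u j = i`.
-/

set_option autoImplicit false

namespace Pool.Agent.WFS.Lab

open Pool.Agent.WFS

/-- a map along the edges which contracts everything to a fixed point -/
theorem exists_tree {V : Type} [Fintype V] [DecidableEq V] (A : Matrix V V ℕ)
    (hprim : ∃ R, ∀ i j, 0 < (A ^ R) i j) (htr : 0 < A.trace) :
    ∃ (g : V → V) (c : V), (∀ j, 0 < A (g j) j) ∧ ∀ j, g^[Fintype.card V] j = c := by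
  sorry

theorem exists_default {V : Type} [Fintype V] [DecidableEq V] {n : ℕ} (hn : 2 ≤ n)
    (A : Matrix V V ℕ) (hcol : ∀ j, ∑ i, A i j = n) (hprim : ∃ R, ∀ i j, 0 < (A ^ R) i j)
    (htr : ∀ m, 1 ≤ m → (A ^ m).trace = n ^ m) :
    ∃ (f : Fin n → V → V) (o : Fin n) (c0 : V) (R : ℕ), am f = A ∧
      (∀ v, wf f (List.replicate (Fintype.card V) o) v = c0) ∧
      (∀ v v', ∃ d : List (Fin n), d.length = R ∧ wf f d v = v') ∧
      (∀ m, 1 ≤ m →
        Fintype.card {q : V × (Fin m → Fin n) // wf f (List.ofFn q.2) q.1 = q.1} = n ^ m) := by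
  sorry

end Pool.Agent.WFS.Lab
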