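import Pool.Agent.WFS.Lab.Theta
import Pool.Agent.WFS.Lab.Bb
import Pool.Agent.WFS.Lab.Good
import Pool.Agent.WFS.Lab.Kill
import Pool.Agent.WFS.Lab.Near
import Pool.Agent.WFS.Lab.Tree

/-!
# WFS module C: THE LABELLING THEOREM

For a unital primitive matrix `A` with `tr A^m = n^m` there is `r` with `1/n < r < 1` such that for every `ε > 0` and
`N₀` there are `N ≥ N₀` and a labelled graph `F` with matrix strong shift equivalent to `A` such that every word of
length `< N` synchronises, `#Q r^N ≤ ε`, and the words of length `≥ N` which are not constant have total size `≤ ε` in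
the norm `∑ d, r^d ∑ i, max_j`.
-/

set_option autoImplicit false

namespace Pool.Agent.WFS.Lab

open Pool.Agent.WFS

theorem labelling {V : Type} [Fintype V] [DecidableEq V] [Nonempty V] {n : ℕ} (hn : 2 ≤ n)
    (A : Matrix V V ℕ) (hcol : ∀ j, ∑ i, A i j = n) (hprim : ∃ R, ∀ i j, 0 < (A ^ R) i j)
    (htr : ∀ m, 1 ≤ m → (A ^ m).trace = n ^ m) :
    ∃ r : ℝ, 0 < r ∧ r < 1 ∧ 1 < n * r ∧ ∀ ε : ℝ, 0 < ε → ∀ N₀ : ℕ, ∃ N, N₀ ≤ N ∧
      ∃ (Q : Type) (_ : Fintype Q) (_ : DecidableEq Q) (_ : Nonempty Q) (F : Fin n → Q → Q),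
        Sse (toFin (am F)) (toFin A) ∧
        (∀ w : List (Fin n), w ≠ [] → w.length < N → ∃ m c, ∀ q, (wf F w)^[m] q = c) ∧
        (Fintype.card Q : ℝ) * r ^ N ≤ ε ∧
        ∀ (W : Finset (List (Fin n))) (T : ℕ),
          (∀ x ∈ W, N ≤ x.length ∧ ¬ ∃ c, ∀ q, wf F x q = c) →
          (∑ d ∈ Finset.range T, r ^ d * ((∑ q', Finset.univ.sup fun q =>
            (W.filter fun x => x.length = d ∧ wf F x q = q').card : ℕ) : ℝ)) ≤ ε := by
  sorry

end Pool.Agent.WFS.Lab
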