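import Pool.Agent.WFS.Lab.Pat

/-!
# WFS module C: overlaps of runs and detours (C4, first part)

Everything rests on `PN_ext`: two sequences of `PN` which agree on `2 N` consecutive letters continue in the same way.

Sizes: `L ≥ 2 (R + 6 N) + 4 k`, `N ≥ 3 k`.
-/

set_option autoImplicit false

namespace Pool.Agent.WFS.Lab

open Pool.Agent.WFS

namespace Lb

variable {α V : Type} [Fintype V] (D : Lb α V)

theorem isR_length {q : V × List α} (h : D.isR q) :
    D.L < q.2.length ∧ q.2.length ≤ 2 * D.L + D.R := by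
  -- the last `L` letters of `seg (ta v x) (L + (1 + R + L))` are a run of the sequence of `Ψ`
  sorry

theorem pats_length {q : V × List α} (h : q ∈ D.pats.S) : q.2.length ≤ 2 * D.L + D.R := by
  rcases h with h | h
  · have := h.1
    omega
  · exact (D.isR_length h).2

theorem zz_mem_Cy (v : V) {x : ℕ → α} (hx : x ∈ D.P) : D.zz v x ∈ Cy D.f D.o D.k D.N :=
  mem_Cy_of_long hx v D.hL1

/-- runs stay on their track -/
theorem sfx_run (v : V) {x : ℕ → α} (hx : x ∈ D.P) :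
    D.pats.sfx D.f (v, seg x D.L ++ [x D.L]) = (D.f (x 0) v, seg (sh 1 x) D.L) := by
  sorry

/-- the exit edge -/
theorem mem_exit (v : V) {x : ℕ → α} (hx : x ∈ D.P) (h : D.b (D.zz v x) ≠ x D.L) :
    (v, seg (D.ta v x) (D.L + 1)) ∈ D.pats.S := by
  -- a run which contains the letters `1, .., L - 1` of `x` continues with `x L`
  sorry

/-- leaving a run -/
theorem sfx_run_off (v : V) {x : ℕ → α} (hx : x ∈ D.P) {a : α} (h1 : a ≠ x D.L)
    (h2 : a ≠ D.b (D.zz v x)) :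
    (D.pats.sfx D.f (v, seg x D.L ++ [a])).2.length ≤ 2 * D.N := by
  sorry

/-- on a detour: the next pattern, or the end of the detour (the last `L` letters are a run of the sequence of
`Ψ (sh L x)`) -/
theorem sfx_det (v : V) {x : ℕ → α} (hx : x ∈ D.P) {i : ℕ} (hi : 1 ≤ i)
    (h : D.b (D.zz v x) ≠ x D.L)
    (hr : ∀ j, 1 ≤ j → j ≤ i → ¬ D.Run D.L (sh j (D.ta v x))) :
    (¬ D.Run D.L (sh (i + 1) (D.ta v x)) ∧
      D.pats.sfx D.f (v, seg (D.ta v x) (D.L + i) ++ [D.ta v x (D.L + i)]) =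
        (v, seg (D.ta v x) (D.L + (i + 1)))) ∨
    (D.L ≤ i + 2 * D.N ∧ ∃ v' : V, ∃ x' ∈ D.P,
      D.pats.sfx D.f (v, seg (D.ta v x) (D.L + i) ++ [D.ta v x (D.L + i)]) = (v', seg x' D.L) ∧
      D.zz v' x' = (sg D.f)^[i + 1] (D.Ψ (sh D.L x))) := by
  sorry

/-- leaving a detour -/
theorem sfx_det_off (v : V) {x : ℕ → α} (hx : x ∈ D.P) {i : ℕ} (hi : 1 ≤ i)
    (h : D.b (D.zz v x) ≠ x D.L)
    (hr : ∀ j, 1 ≤ j → j ≤ i → ¬ D.Run D.L (sh j (D.ta v x))) {a : α}
    (ha : a ≠ D.ta v x (D.L + i)) :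
    (D.pats.sfx D.f (v, seg (D.ta v x) (D.L + i) ++ [a])).2.length ≤ D.R + 4 * D.N + 1 := by
  sorry

end Lb

end Pool.Agent.WFS.Lab
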