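import Pool.Agent.WFS.Lab.Auto

/-!
# WFS module C: periodic sequences and periodic points

`sh i x` = shift of a sequence, `PerS p x` = `p` is a period, `seg x l` = the first `l` letters, `Av o k x` = `x`
avoids `o^k`; `sg f (v, x) = (f (x 0) v, sh 1 x)` the shift on pairs. `PN` = sequences with a period `< N` avoiding
`o^k`; `PA` = pairs with a period `< N` avoiding `o^k`; `Cy` = periodic pairs over `PN`.
-/

set_option autoImplicit false

namespace Pool.Agent.WFS.Lab

open Pool.Agent.WFS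

variable {α V : Type}

/-- shift -/
def sh (i : ℕ) (x : ℕ → α) : ℕ → α := fun j => x (i + j)

/-- `p` is a period -/
def PerS (p : ℕ) (x : ℕ → α) : Prop := ∀ i, x (i + p) = x i

/-- the sequence avoids `o^k` -/
def Av (o : α) (k : ℕ) (x : ℕ → α) : Prop := ∀ i, ∃ j < k, x (i + j) ≠ o

/-- the first `l` letters -/
def seg (x : ℕ → α) (l : ℕ) : List α := (List.range l).map x

/-- the shift on pairs -/
def sg (f : α → V → V) (z : V × (ℕ → α)) : V × (ℕ → α) := (f (z.2 0) z.1, sh 1 z.2)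

@[simp] theorem sh_apply (i : ℕ) (x : ℕ → α) (j : ℕ) : sh i x j = x (i + j) := rfl

theorem sh_zero (x : ℕ → α) : sh 0 x = x := by
  funext j
  simp

theorem sh_sh (i j : ℕ) (x : ℕ → α) : sh i (sh j x) = sh (j + i) x := by
  funext m
  simp [add_assoc]

@[simp] theorem seg_length (x : ℕ → α) (l : ℕ) : (seg x l).length = l := by simp [seg]

@[simp] theorem seg_zero (x : ℕ → α) : seg x 0 = [] := rfl

theorem seg_succ (x : ℕ → α) (l : ℕ) : seg x (l + 1) = seg x l ++ [x l] := by
  simp [seg, List.range_succ]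

theorem seg_getElem (x : ℕ → α) (l i : ℕ) (h : i < (seg x l).length) : (seg x l)[i] = x i := by
  simp [seg]

theorem seg_eq_iff (x y : ℕ → α) (l : ℕ) : seg x l = seg y l ↔ ∀ i < l, x i = y i := by
  simp [seg, List.map_inj_left]

theorem seg_add (x : ℕ → α) (l m : ℕ) : seg x (l + m) = seg x l ++ seg (sh l x) m := by
  induction m with
  | zero => simp
  | succ m ih => rw [← add_assoc, seg_succ, ih, seg_succ, List.append_assoc]; rfl

theorem seg_one (x : ℕ → α) : seg x 1 = [x 0] := rfl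

theorem seg_take (x : ℕ → α) {l m : ℕ} (h : l ≤ m) : (seg x m).take l = seg x l := by
  obtain ⟨j, rfl⟩ := Nat.exists_eq_add_of_le h
  rw [seg_add]
  simp

theorem seg_drop (x : ℕ → α) {l m : ℕ} (h : l ≤ m) : (seg x m).drop l = seg (sh l x) (m - l) := by
  obtain ⟨j, rfl⟩ := Nat.exists_eq_add_of_le h
  rw [seg_add]
  simp

/-- every list is the beginning of a sequence -/
theorem eq_seg [Inhabited α] (u : List α) : u = seg (fun i => u.getD i default) u.length := by
  refine List.ext_getElem (by simp) fun i h1 h2 => ?_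
  rw [seg_getElem]
  simp [List.getD, h1]

theorem sg_iter (f : α → V → V) (i : ℕ) (z : V × (ℕ → α)) :
    (sg f)^[i] z = (wf f (seg z.2 i) z.1, sh i z.2) := by
  induction i with
  | zero => simp [sh_zero]
  | succ i ih =>
    rw [Function.iterate_succ_apply', ih]
    refine Prod.ext ?_ ?_
    · show f (sh i z.2 0) _ = _
      rw [seg_succ, wf_concat]
      rfl
    · show sh 1 (sh i z.2) = _
      rw [sh_sh]

/-- weak Fine-Wilf -/
theorem fw {x y : ℕ → α} {p q : ℕ} (hp : 0 < p) (hq : 0 < q) (hx : PerS p x) (hy : PerS q y)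
    (h : ∀ i < p + q, x i = y i) : x = y := by
  funext i
  induction i using Nat.strong_induction_on with
  | _ i ih =>
    rcases Nat.lt_or_ge i (p + q) with hi | hi
    · exact h i hi
    · obtain ⟨j, rfl⟩ := Nat.exists_eq_add_of_le hi
      have e1 : x (p + q + j) = x (q + j) := by
        have := hx (q + j)
        rwa [show q + j + p = p + q + j by ring] at this
      have e2 : y (q + j) = y j := by
        have := hy j
        rwa [show j + q = q + j by ring] at this
      have e3 : x (p + j) = x j := by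
        have := hx j
        rwa [show j + p = p + j by ring] at this
      have e4 : y (p + q + j) = y (p + j) := by
        have := hy (p + j)
        rwa [show p + j + q = p + q + j by ring] at this
      rw [e1, e4, ih (q + j) (by omega), e2, ← ih (p + j) (by omega), e3, ih j (by omega)]

theorem PerS.sh {x : ℕ → α} {p : ℕ} (h : PerS p x) (i : ℕ) : PerS p (sh i x) := by
  intro j
  show x (i + (j + p)) = x (i + j)
  rw [← add_assoc]
  exact h _

theorem Av.sh {o : α} {k : ℕ} {x : ℕ → α} (h : Av o k x) (i : ℕ) : Av o k (sh i x) := by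
  intro j
  obtain ⟨m, hm, h'⟩ := h (i + j)
  refine ⟨m, hm, ?_⟩
  show x (i + (j + m)) ≠ o
  rwa [← add_assoc]

/-- periodic sequences with a period `< N` avoiding `o^k` -/
def PN (o : α) (k N : ℕ) : Set (ℕ → α) := {x | (∃ p, 0 < p ∧ p < N ∧ PerS p x) ∧ Av o k x}

/-- periodic pairs with a period `< N` avoiding `o^k` -/
def PA (f : α → V → V) (o : α) (k N : ℕ) : Set (V × (ℕ → α)) :=
  {z | (∃ p, 0 < p ∧ p < N ∧ (sg f)^[p] z = z) ∧ Av o k z.2}

/-- periodic pairs over `PN` -/
def Cy (f : α → V → V) (o : α) (k N : ℕ) : Set (V × (ℕ → α)) :=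
  {z | z.2 ∈ PN o k N ∧ ∃ q, 0 < q ∧ (sg f)^[q] z = z}

theorem PN_sh {o : α} {k N : ℕ} {x : ℕ → α} (h : x ∈ PN o k N) (i : ℕ) : sh i x ∈ PN o k N := by
  obtain ⟨⟨p, h1, h2, h3⟩, h4⟩ := h
  exact ⟨⟨p, h1, h2, h3.sh i⟩, h4.sh i⟩

/-- two sequences of `PN` which agree on `2 N` letters are equal -/
theorem PN_ext {o : α} {k N : ℕ} {x y : ℕ → α} (hx : x ∈ PN o k N) (hy : y ∈ PN o k N)
    (h : ∀ i < 2 * N, x i = y i) : x = y := by
  obtain ⟨⟨p, h1, h2, h3⟩, _⟩ := hx
  obtain ⟨⟨q, g1, g2, g3⟩, _⟩ := hy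
  exact fw h1 g1 h3 g3 fun i hi => h i (by omega)

theorem PerS_of_sg {f : α → V → V} {z : V × (ℕ → α)} {p : ℕ} (h : (sg f)^[p] z = z) :
    PerS p z.2 := by
  intro i
  rw [sg_iter] at h
  have := congrFun (congrArg Prod.snd h) i
  rw [add_comm]
  exact this

theorem PA_sub_Cy {f : α → V → V} {o : α} {k N : ℕ} : PA f o k N ⊆ Cy f o k N := by
  rintro z ⟨⟨p, h1, h2, h3⟩, h4⟩
  exact ⟨⟨⟨p, h1, h2, PerS_of_sg h3⟩, h4⟩, p, h1, h3⟩

theorem sg_fix {f : α → V → V} {z : V × (ℕ → α)} {p : ℕ} (h : (sg f)^[p] z = z) (i : ℕ) :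
    (sg f)^[p] ((sg f)^[i] z) = (sg f)^[i] z := by
  rw [← Function.iterate_add_apply, add_comm, Function.iterate_add_apply, h]

theorem PA_sg {f : α → V → V} {o : α} {k N : ℕ} {z : V × (ℕ → α)} (h : z ∈ PA f o k N) (i : ℕ) :
    (sg f)^[i] z ∈ PA f o k N := by
  obtain ⟨⟨p, h1, h2, h3⟩, h4⟩ := h
  refine ⟨⟨p, h1, h2, sg_fix h3 i⟩, ?_⟩
  rw [sg_iter]
  exact h4.sh i

theorem Cy_sg {f : α → V → V} {o : α} {k N : ℕ} {z : V × (ℕ → α)} (h : z ∈ Cy f o k N) (i : ℕ) :
    (sg f)^[i] z ∈ Cy f o k N := by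
  obtain ⟨h1, q, h2, h3⟩ := h
  refine ⟨?_, q, h2, sg_fix h3 i⟩
  rw [sg_iter]
  exact PN_sh h1 i

theorem PN_finite [Finite α] {o : α} {k N : ℕ} : (PN o k N).Finite := by
  classical
  have : PN o k N ⊆ ⋃ p ∈ Finset.range N, {x | 0 < p ∧ PerS p x} := by
    rintro x ⟨⟨p, h1, h2, h3⟩, _⟩
    simp only [Set.mem_iUnion, Finset.mem_range]
    exact ⟨p, h2, h1, h3⟩
  refine Set.Finite.subset ?_ this
  refine Set.Finite.biUnion (Finset.finite_toSet _) fun p _ => ?_
  refine Set.Finite.of_finite_image (f := fun x : ℕ → α => fun i : Fin p => x i)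
    (Set.toFinite _) ?_
  rintro x ⟨hp, hx⟩ y ⟨_, hy⟩ hxy
  funext i
  have hmod : ∀ (z : ℕ → α), PerS p z → ∀ i, z i = z (i % p) := by
    intro z hz i
    conv_lhs => rw [← Nat.mod_add_div i p]
    induction i / p with
    | zero => simp
    | succ m ih => rw [Nat.mul_succ, ← add_assoc, hz, ih]
  rw [hmod x hx, hmod y hy]
  exact congrFun hxy ⟨i % p, Nat.mod_lt _ hp⟩

theorem Cy_finite [Finite α] [Finite V] {f : α → V → V} {o : α} {k N : ℕ} :
    (Cy f o k N).Finite := by
  refine Set.Finite.subset (Set.Finite.prod (Set.finite_univ (α := V)) (PN_finite (o := o) (k := k)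
    (N := N))) ?_
  rintro z ⟨h, _⟩
  exact ⟨Set.mem_univ _, h⟩

/-- the orbit of a pair over `PN` is periodic after `card V` periods -/
theorem mem_Cy_of_long [Fintype V] {f : α → V → V} {o : α} {k N : ℕ} {x : ℕ → α}
    (hx : x ∈ PN o k N) (v : V) {l : ℕ} (hl : Fintype.card V * N ≤ l) :
    (wf f (seg x l) v, sh l x) ∈ Cy f o k N := by
  obtain ⟨⟨p, h1, h2, h3⟩, h4⟩ := id hx
  refine ⟨PN_sh hx l, ?_⟩
  -- the points after `0, p, 2 p, ..` have the same sequence
  have hs : ∀ m, sh (m * p) x = x := by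
    intro m
    funext i
    induction m with
    | zero => simp
    | succ m ih =>
      show x ((m + 1) * p + i) = x i
      rw [show (m + 1) * p + i = (m * p + i) + p by ring, h3]
      exact ih
  have hpig : ∃ a b : Fin (Fintype.card V + 1), a ≠ b ∧
      wf f (seg x (a * p)) v = wf f (seg x (b * p)) v := by
    apply Fintype.exists_ne_map_eq_of_card_lt (fun a : Fin (Fintype.card V + 1) =>
      wf f (seg x (a * p)) v)
    simp
  obtain ⟨a, b, hab, hv⟩ := hpig
  wlog hlt : a < b generalizing a b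
  · exact this b a (Ne.symm hab) hv.symm (lt_of_le_of_ne (not_lt.1 hlt) (Ne.symm hab))
  have hlt' : (a : ℕ) < b := hlt
  have ha : (a : ℕ) * p ≤ l := by
    have h5 : (a : ℕ) ≤ Fintype.card V := by have := b.2; omega
    calc (a : ℕ) * p ≤ Fintype.card V * N := Nat.mul_le_mul h5 h2.le
      _ ≤ l := hl
  refine ⟨(b - a) * p, Nat.mul_pos (by omega) h1, ?_⟩
  have hz : (wf f (seg x l) v, sh l x) = (sg f)^[l] (v, x) := by rw [sg_iter]
  have hq : (sg f)^[(b - a) * p] ((sg f)^[a * p] (v, x)) = (sg f)^[a * p] (v, x) := by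
    rw [← Function.iterate_add_apply, ← Nat.add_mul, Nat.sub_add_cancel hlt'.le, sg_iter, sg_iter]
    refine Prod.ext hv.symm ?_
    show sh (b * p) x = sh (a * p) x
    rw [hs, hs]
  rw [hz, ← Nat.sub_add_cancel ha, Function.iterate_add_apply]
  exact sg_fix hq _

end Pool.Agent.WFS.Lab
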