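import Pool.Agent.WFS.Lab.Suf
import Pool.Agent.WFS.Lab.Per

/-!
# WFS module C: the patterns and the new labels

Data `Lb`: the default labelling `f`, the synchronising letter `o` (`o^k` is constant), the threshold `N` (periods
`< N` are captured), the run length `L`, the length `R` of the detours, the equivariant bijection `Θ : PA → PN` with
inverse `Ψ`, the new label `b z` of the default edge `z.2 0` at a point `z` of `Cy`, the detours `d`.
-/

set_option autoImplicit false

namespace Pool.Agent.WFS.Lab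

open Pool.Agent.WFS

/-- the data of the labelling -/
structure Lb (α V : Type) [Fintype V] where
  f : α → V → V
  o : α
  k : ℕ
  N : ℕ
  L : ℕ
  R : ℕ
  c0 : V
  Θ : V × (ℕ → α) → (ℕ → α)
  Ψ : (ℕ → α) → V × (ℕ → α)
  b : V × (ℕ → α) → α
  d : V × (ℕ → α) → List α
  hk : 1 ≤ k
  hf0 : ∀ v, wf f (List.replicate k o) v = c0
  hN : 3 * k ≤ N
  hL1 : Fintype.card V * N ≤ L
  hL2 : 2 * (R + 6 * N) + 4 * k ≤ L
  hΘ : ∀ z ∈ PA f o k N, Θ z ∈ PN o k N ∧ Ψ (Θ z) = z ∧ Θ (sg f z) = sh 1 (Θ z)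
  hΨ : ∀ x ∈ PN o k N, Ψ x ∈ PA f o k N ∧ Θ (Ψ x) = x
  /-- the new labels on the captured orbits -/
  hbA : ∀ z ∈ PA f o k N, b z = Θ z 0
  /-- on the long orbits the new labels are the default ones, except for one block of `k` letters `o` -/
  hbL : ∀ z ∈ Cy f o k N, z ∉ PA f o k N → ∃ c, N ≤ c ∧ (sg f)^[c] z = z ∧
    ∃ i, (∀ j < k, b ((sg f)^[i + j] z) = o) ∧
      ∀ j, k ≤ j → j < c → b ((sg f)^[i + j] z) = z.2 (i + j)
  hbL2 : ∀ z ∈ Cy f o k N, z ∉ PA f o k N → b z = z.2 0 ∨ b z = o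
  /-- the detour after the exit edge `b z` -/
  hd : ∀ z ∈ Cy f o k N, (d z).length = R ∧
    wf f (d z) (f (b z) z.1) = ((sg f)^[1 + R] (Ψ z.2)).1

namespace Lb

variable {α V : Type} [Fintype V] (D : Lb α V)

/-- the periodic sequences -/
abbrev P : Set (ℕ → α) := PN D.o D.k D.N

/-- the point reached by a run of length `L` -/
def zz (v : V) (x : ℕ → α) : V × (ℕ → α) := (wf D.f (seg x D.L) v, sh D.L x)

/-- the default letters after the exit at `z`: exit edge, detour, orbit of `Ψ z.2` -/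
def zt (z : V × (ℕ → α)) : ℕ → α := fun i =>
  if i = 0 then D.b z else if i < 1 + D.R then (D.d z).getD (i - 1) D.o else (D.Ψ z.2).2 i

/-- a run of length `L` followed by the exit and the detour -/
def ta (v : V) (x : ℕ → α) : ℕ → α := fun j => if j < D.L then x j else D.zt (D.zz v x) (j - D.L)

/-- the first `l` letters are a run -/
def Run (l : ℕ) (y : ℕ → α) : Prop := ∃ x ∈ D.P, ∀ i < l, y i = x i

/-- free and run states -/
def isD (q : V × List α) : Prop :=
  q.2.length ≤ D.L ∧ (q.2 = [] ∨ ∃ x ∈ D.P, q.2 = seg x q.2.length)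

/-- detour states -/
def isR (q : V × List α) : Prop := ∃ x ∈ D.P, ∃ i, 1 ≤ i ∧ D.b (D.zz q.1 x) ≠ x D.L ∧
  q.2 = seg (D.ta q.1 x) (D.L + i) ∧ ∀ j, 1 ≤ j → j ≤ i → ¬ D.Run D.L (sh j (D.ta q.1 x))

theorem ta_lt {v : V} {x : ℕ → α} {j : ℕ} (h : j < D.L) : D.ta v x j = x j := by
  simp [ta, h]

theorem ta_ge (v : V) (x : ℕ → α) (j : ℕ) : D.ta v x (D.L + j) = D.zt (D.zz v x) j := by
  simp [ta]

theorem ta_L (v : V) (x : ℕ → α) : D.ta v x D.L = D.b (D.zz v x) := by
  have := D.ta_ge v x 0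
  simpa [zt] using this

theorem seg_ta {v : V} {x : ℕ → α} {l : ℕ} (h : l ≤ D.L) : seg (D.ta v x) l = seg x l := by
  rw [seg_eq_iff]
  intro i hi
  exact D.ta_lt (by omega)

/-- the prefix closed set of paths -/
def pats : Pats α V where
  S := {q | D.isD q ∨ D.isR q}
  nil v := Or.inl ⟨by simp, Or.inl rfl⟩
  pre := by
    intro v u a h
    rcases h with ⟨h1, h2⟩ | ⟨x, hx, i, h1, h2, h3, h4⟩
    · refine Or.inl ⟨by simp at h1; show u.length ≤ _; omega, Or.inr ?_⟩
      rcases h2 with h2 | ⟨x, hx, h2⟩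
      · exact absurd h2 (by simp)
      · refine ⟨x, hx, ?_⟩
        have e : (u ++ [a]).length = u.length + 1 := by simp
        simp only [e] at h2
        rw [seg_succ] at h2
        exact (List.append_inj' h2 (by simp)).1
    · obtain ⟨i, rfl⟩ := Nat.exists_eq_add_of_le h1
      have h5 : u ++ [a] = seg (D.ta v x) (D.L + i) ++ [D.ta v x (D.L + i)] := by
        rw [← seg_succ]
        refine h3.trans ?_
        show seg (D.ta v x) (D.L + (1 + i)) = _
        rw [Nat.add_comm 1 i]
        rfl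
      have h6 : u = seg (D.ta v x) (D.L + i) := (List.append_inj' h5 (by simp)).1
      rcases Nat.eq_zero_or_pos i with rfl | hi
      · refine Or.inl ⟨?_, Or.inr ⟨x, hx, ?_⟩⟩
        · show u.length ≤ _
          rw [h6]
          simp
        · show u = seg x u.length
          rw [h6]
          simp only [add_zero, seg_length]
          exact D.seg_ta le_rfl
      · exact Or.inr ⟨x, hx, i, hi, h2, h6, fun j hj hji => h4 j hj (by omega)⟩

theorem mem_pats {q : V × List α} : q ∈ D.pats.S ↔ D.isD q ∨ D.isR q := Iff.rfl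

/-- the sequence of the run at the beginning of a long pattern -/
noncomputable def xs (q : V × List α) : ℕ → α := by
  classical
  exact if h : ∃ x ∈ D.P, q.2.take D.L = seg x D.L then h.choose else fun _ => D.o

/-- the relabelling at a state: one transposition -/
noncomputable def pm [DecidableEq α] (q : V × List α) : Equiv.Perm α :=
  if q.2.length < D.L then 1 else
    Equiv.swap (D.xs q q.2.length) (D.zt (D.zz q.1 (D.xs q)) (q.2.length - D.L))

/-- the new labelled graph -/
noncomputable def F [DecidableEq α] (a : α) (q : D.pats.St) : D.pats.St :=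
  D.pats.dl D.f (D.pm q.1 a) q

/-- run states -/
theorem memP (v : V) {x : ℕ → α} (hx : x ∈ D.P) {l : ℕ} (hl : l ≤ D.L) :
    (v, seg x l) ∈ D.pats.S :=
  Or.inl ⟨by simpa using hl, Or.inr ⟨x, hx, by simp⟩⟩

theorem xs_eq (v : V) {x : ℕ → α} (hx : x ∈ D.P) {u : List α} (hu : u.take D.L = seg x D.L) :
    D.xs (v, u) = x := by
  classical
  have h : ∃ x ∈ D.P, (v, u).2.take D.L = seg x D.L := ⟨x, hx, hu⟩
  have e : D.xs (v, u) = h.choose := by
    simp only [xs]
    rw [dif_pos h]
  rw [e]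
  obtain ⟨h1, h2⟩ := h.choose_spec
  refine PN_ext h1 hx fun i hi => ?_
  have h3 : seg h.choose D.L = seg x D.L := h2.symm.trans hu
  rw [seg_eq_iff] at h3
  have := D.hL2
  exact h3 i (by omega)

end Lb

end Pool.Agent.WFS.Lab
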