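import Pool.Agent.WFS.Lab.Ov

/-!
# WFS module C: the transitions (C4, second part)

`Sp q E`: the state `q` is special (a full run or a point of a detour) with expected label sequence `E`.
Run state, `z = zz q.1 x`: `pm` is the transposition of `x L` and `b z = zt z 0`. Detour state of index `i`: `pm` is the
transposition of `x (L + i)` and `zt z i = ta v x (L + i)` (use `xs_eq`). For the end of a detour in `F_on` use
`hbA`, `hΘ`, `hΨ`: `b (sg^[j + i + 1] (Ψ (sh L x))) = Θ (..) 0 = (sh L x) (j + i + 1)`.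
-/

set_option autoImplicit false

namespace Pool.Agent.WFS.Lab

open Pool.Agent.WFS

namespace Lb

variable {α V : Type} [Fintype V] (D : Lb α V)

/-- special states with their expected label sequence -/
def Sp (q : V × List α) (E : ℕ → α) : Prop :=
  (∃ x ∈ D.P, q.2 = seg x D.L ∧ E = fun i => D.b ((sg D.f)^[i] (D.zz q.1 x))) ∨
  (∃ x ∈ D.P, ∃ i, 1 ≤ i ∧ D.b (D.zz q.1 x) ≠ x D.L ∧
    q.2 = seg (D.ta q.1 x) (D.L + i) ∧ (∀ j, 1 ≤ j → j ≤ i → ¬ D.Run D.L (sh j (D.ta q.1 x))) ∧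
    E = sh (D.L + i) x)

variable [DecidableEq α]

omit [DecidableEq α] in
private theorem L_pos_Run : 0 < D.L := by
  have h1 := D.hL2
  have h2 := D.hk
  omega

omit [DecidableEq α] in
private theorem zz_sh_Run (v : V) (x : ℕ → α) :
    D.zz (D.f (x 0) v) (sh 1 x) = sg D.f (D.zz v x) := by
  have h1 : ∀ (w : V) (y : ℕ → α), D.zz w y = (sg D.f)^[D.L] (w, y) := by
    intro w y
    rw [sg_iter]
    rfl
  rw [h1, h1, ← Function.iterate_succ_apply' (sg D.f), Function.iterate_succ_apply]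
  rfl

omit [DecidableEq α] in
private theorem Theta_iter_Run {z : V × (ℕ → α)} (hz : z ∈ PA D.f D.o D.k D.N) (i : ℕ) :
    D.Θ ((sg D.f)^[i] z) = sh i (D.Θ z) := by
  induction i with
  | zero => rw [Function.iterate_zero_apply, sh_zero]
  | succ i ih =>
    rw [Function.iterate_succ_apply', (D.hΘ _ (PA_sg hz i)).2.2, ih, sh_sh]

omit [DecidableEq α] in
private theorem b_Psi_Run {y : ℕ → α} (hy : y ∈ D.P) (m : ℕ) :
    D.b ((sg D.f)^[m] (D.Ψ y)) = y m := by
  obtain ⟨h1, h2⟩ := D.hΨ y hy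
  rw [D.hbA _ (PA_sg h1 m), Theta_iter_Run D h1 m, h2]
  rfl

private theorem pm_run_Run (v : V) {x : ℕ → α} (hx : x ∈ D.P) {u : List α} (hu : u = seg x D.L) :
    D.pm (v, u) = Equiv.swap (x D.L) (D.b (D.zz v x)) := by
  have h1 : D.xs (v, u) = x := D.xs_eq v hx (by rw [hu, seg_take x le_rfl])
  have h2 : u.length = D.L := by rw [hu, seg_length]
  unfold pm
  rw [if_neg (by show ¬ u.length < D.L; omega), h1]
  show Equiv.swap (x u.length) (D.zt (D.zz v x) (u.length - D.L)) = _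
  rw [h2, Nat.sub_self]
  rfl

private theorem pm_det_Run (v : V) {x : ℕ → α} (hx : x ∈ D.P) {i : ℕ} {u : List α}
    (hu : u = seg (D.ta v x) (D.L + i)) :
    D.pm (v, u) = Equiv.swap (x (D.L + i)) (D.ta v x (D.L + i)) := by
  have h1 : D.xs (v, u) = x := D.xs_eq v hx (by
    rw [hu, seg_take _ (Nat.le_add_right _ _), D.seg_ta le_rfl])
  have h2 : u.length = D.L + i := by rw [hu, seg_length]
  unfold pm
  rw [if_neg (by show ¬ u.length < D.L; omega), h1]
  show Equiv.swap (x u.length) (D.zt (D.zz v x) (u.length - D.L)) = _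
  rw [h2, Nat.add_sub_cancel_left, D.ta_ge]

private theorem F_val_Run (a : α) (q : D.pats.St) :
    (D.F a q).1 = D.pats.sfx D.f (q.1.1, q.1.2 ++ [D.pm q.1 a]) := rfl

theorem Sp_or_free (q : D.pats.St) : q.1.2.length < D.L ∨ ∃ E, D.Sp q.1 E := by
  obtain ⟨⟨v, u⟩, hq⟩ := q
  rcases hq with ⟨h1, h2⟩ | ⟨x, hx, i, h1, h2, h3, h4⟩
  · rcases h2 with h2 | ⟨x, hx, h2⟩
    · left
      show u.length < D.L
      have h3 : u = [] := h2
      rw [h3]
      exact L_pos_Run D
    · rcases Nat.lt_or_ge u.length D.L with h | h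
      · exact Or.inl h
      · right
        have h3 : u.length = D.L := le_antisymm h1 h
        refine ⟨_, Or.inl ⟨x, hx, ?_, rfl⟩⟩
        show u = seg x D.L
        rw [← h3]
        exact h2
  · exact Or.inr ⟨_, Or.inr ⟨x, hx, i, h1, h2, h3, h4, rfl⟩⟩

/-- free states: the label is the default letter, and the length grows by at most one -/
theorem F_free (q : D.pats.St) (h : q.1.2.length < D.L) (a : α) :
    D.F a q = D.pats.dl D.f a q ∧ (D.F a q).1.2.length ≤ q.1.2.length + 1 := by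
  have h1 : D.pm q.1 = 1 := by
    unfold pm
    rw [if_pos h]
  have h2 : D.F a q = D.pats.dl D.f a q := by
    unfold F
    rw [h1]
    rfl
  refine ⟨h2, ?_⟩
  rw [h2]
  show (suf D.f _ (app q.1 a)).2.length ≤ _
  rw [suf_length]
  have h3 : (app q.1 a).2.length = q.1.2.length + 1 := by simp [app]
  omega

/-- ON: reading the expected label keeps the state special -/
theorem F_on (q : D.pats.St) {E : ℕ → α} (h : D.Sp q.1 E) :
    D.Sp (D.F (E 0) q).1 (sh 1 E) := by
  obtain ⟨⟨v, u⟩, hq⟩ := q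
  rcases h with ⟨x, hx, h1, rfl⟩ | ⟨x, hx, i, hi, h2, h1, h3, rfl⟩
  · have hu : u = seg x D.L := h1
    have h4 : D.pm (v, u) (D.b (D.zz v x)) = x D.L := by
      rw [pm_run_Run D v hx hu, Equiv.swap_apply_right]
    have h5 : (D.F (D.b (D.zz v x)) ⟨(v, u), hq⟩).1 = (D.f (x 0) v, seg (sh 1 x) D.L) := by
      rw [F_val_Run]
      show D.pats.sfx D.f (v, u ++ [D.pm (v, u) (D.b (D.zz v x))]) = _
      rw [h4, hu]
      exact D.sfx_run v hx
    refine Or.inl ⟨sh 1 x, PN_sh hx 1, ?_, ?_⟩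
    · exact congrArg Prod.snd h5
    · have h6 : (D.F (D.b (D.zz v x)) ⟨(v, u), hq⟩).1.1 = D.f (x 0) v := congrArg Prod.fst h5
      show sh 1 (fun i => D.b ((sg D.f)^[i] (D.zz v x))) = fun i =>
        D.b ((sg D.f)^[i] (D.zz (D.F (D.b (D.zz v x)) ⟨(v, u), hq⟩).1.1 (sh 1 x)))
      rw [h6, zz_sh_Run]
      funext j
      show D.b ((sg D.f)^[1 + j] (D.zz v x)) = D.b ((sg D.f)^[j] (sg D.f (D.zz v x)))
      rw [Nat.add_comm 1 j, Function.iterate_succ_apply]
  · have hu : u = seg (D.ta v x) (D.L + i) := h1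
    have h4 : D.pm (v, u) (x (D.L + i)) = D.ta v x (D.L + i) := by
      rw [pm_det_Run D v hx hu, Equiv.swap_apply_left]
    have h5 : (D.F (x (D.L + i)) ⟨(v, u), hq⟩).1 =
        D.pats.sfx D.f (v, seg (D.ta v x) (D.L + i) ++ [D.ta v x (D.L + i)]) := by
      rw [F_val_Run]
      show D.pats.sfx D.f (v, u ++ [D.pm (v, u) (x (D.L + i))]) = _
      rw [h4, hu]
    show D.Sp (D.F (x (D.L + i)) ⟨(v, u), hq⟩).1 _
    rcases D.sfx_det v hx hi h2 h3 with ⟨h6, h7⟩ | ⟨h6, v', x', hx', h7, h8⟩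
    · rw [h7] at h5
      rw [h5]
      refine Or.inr ⟨x, hx, i + 1, by omega, h2, rfl, fun j hj hji => ?_, ?_⟩
      · rcases Nat.lt_or_ge i j with hij | hij
        · have : j = i + 1 := by omega
          rw [this]
          exact h6
        · exact h3 j hj hij
      · rw [sh_sh, add_assoc]
    · rw [h7] at h5
      rw [h5]
      refine Or.inl ⟨x', hx', rfl, ?_⟩
      funext j
      show x (D.L + i + (1 + j)) = D.b ((sg D.f)^[j] (D.zz v' x'))
      rw [h8, ← Function.iterate_add_apply, b_Psi_Run D (PN_sh hx D.L)]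
      show _ = x (D.L + (j + (i + 1)))
      congr 1
      omega

/-- OFF: another label leads to a short free state, or from a run through the exit edge -/
theorem F_off (q : D.pats.St) {E : ℕ → α} (h : D.Sp q.1 E) {a : α} (ha : a ≠ E 0) :
    (D.F a q).1.2.length ≤ D.R + 4 * D.N + 1 ∨
    ∃ x ∈ D.P, q.1.2 = seg x D.L ∧ a = x D.L ∧ D.b (D.zz q.1.1 x) ≠ x D.L ∧
      (D.F a q).1 = (q.1.1, seg (D.ta q.1.1 x) (D.L + 1)) := by
  obtain ⟨⟨v, u⟩, hq⟩ := q
  rcases h with ⟨x, hx, h1, rfl⟩ | ⟨x, hx, i, hi, h2, h1, h3, rfl⟩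
  · have hu : u = seg x D.L := h1
    have ha' : a ≠ D.b (D.zz v x) := ha
    by_cases hax : a = x D.L
    · right
      have hb : D.b (D.zz v x) ≠ x D.L := fun hc => ha' (hax.trans hc.symm)
      have h4 : D.pm (v, u) a = D.b (D.zz v x) := by
        rw [pm_run_Run D v hx hu, hax, Equiv.swap_apply_left]
      have h5 : seg x D.L ++ [D.b (D.zz v x)] = seg (D.ta v x) (D.L + 1) := by
        rw [seg_succ, D.seg_ta le_rfl, D.ta_L]
      refine ⟨x, hx, hu, hax, hb, ?_⟩
      rw [F_val_Run]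
      show D.pats.sfx D.f (v, u ++ [D.pm (v, u) a]) = (v, seg (D.ta v x) (D.L + 1))
      rw [h4, hu, h5]
      exact D.pats.sfx_of_mem D.f (D.mem_exit v hx hb)
    · left
      have h4 : D.pm (v, u) a = a := by
        rw [pm_run_Run D v hx hu, Equiv.swap_apply_of_ne_of_ne hax ha']
      have h5 := D.sfx_run_off v hx hax ha'
      rw [F_val_Run]
      show (D.pats.sfx D.f (v, u ++ [D.pm (v, u) a])).2.length ≤ _
      rw [h4, hu]
      omega
  · left
    have hu : u = seg (D.ta v x) (D.L + i) := h1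
    have ha' : a ≠ x (D.L + i) := ha
    have h4 : D.pm (v, u) a ≠ D.ta v x (D.L + i) := by
      rw [pm_det_Run D v hx hu]
      intro hc
      apply ha'
      have h5 := congrArg (Equiv.swap (x (D.L + i)) (D.ta v x (D.L + i))) hc
      rw [Equiv.swap_apply_self, Equiv.swap_apply_right] at h5
      exact h5
    rw [F_val_Run]
    show (D.pats.sfx D.f (v, u ++ [D.pm (v, u) a])).2.length ≤ _
    have h5 := D.sfx_det_off v hx hi h2 h3 h4
    rw [← hu] at h5
    exact h5

/-- the default letter read at a run state under its expected label -/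
theorem F_run (q : D.pats.St) {x : ℕ → α} (hx : x ∈ D.P) (hq : q.1.2 = seg x D.L) :
    (D.F (D.b (D.zz q.1.1 x)) q).1 = (D.f (x 0) q.1.1, seg (sh 1 x) D.L) ∧
    D.pm q.1 (D.b (D.zz q.1.1 x)) = x D.L := by
  obtain ⟨⟨v, u⟩, hq'⟩ := q
  have hu : u = seg x D.L := hq
  have h4 : D.pm (v, u) (D.b (D.zz v x)) = x D.L := by
    rw [pm_run_Run D v hx hu, Equiv.swap_apply_right]
  refine ⟨?_, h4⟩
  rw [F_val_Run]
  show D.pats.sfx D.f (v, u ++ [D.pm (v, u) (D.b (D.zz v x))]) = (D.f (x 0) v, seg (sh 1 x) D.L)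
  rw [h4, hu]
  exact D.sfx_run v hx

theorem zz_sh (v : V) (x : ℕ → α) : D.zz (D.f (x 0) v) (sh 1 x) = sg D.f (D.zz v x) := by
  exact zz_sh_Run D v x

end Lb

end Pool.Agent.WFS.Lab
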