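import Pool.Agent.WFS.Lab.Auto

/-!
# WFS module C: the automaton of the longest recognised suffix

`S` is a set of paths `(v, u)` (start, label word) which contains the empty paths and is closed under prefixes;
the state reached by a path is its longest suffix in `S`.
-/

set_option autoImplicit false

namespace Pool.Agent.WFS.Lab

open Pool.Agent.WFS

variable {α V : Type}

/-- a suffix of a path -/
def suf (f : α → V → V) (i : ℕ) (q : V × List α) : V × List α :=
  (wf f (q.2.take i) q.1, q.2.drop i)

/-- the end of a path -/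
def fin (f : α → V → V) (q : V × List α) : V := wf f q.2 q.1

/-- one more edge -/
def app (q : V × List α) (a : α) : V × List α := (q.1, q.2 ++ [a])

/-- a prefix closed set of paths -/
structure Pats (α V : Type) where
  S : Set (V × List α)
  nil : ∀ v, (v, []) ∈ S
  pre : ∀ v u a, (v, u ++ [a]) ∈ S → (v, u) ∈ S

theorem fin_suf (f : α → V → V) (i : ℕ) (q : V × List α) : fin f (suf f i q) = fin f q := by
  show wf f (q.2.drop i) (wf f (q.2.take i) q.1) = wf f q.2 q.1
  rw [← wf_append, List.take_append_drop]

theorem fin_app (f : α → V → V) (q : V × List α) (a : α) : fin f (app q a) = f a (fin f q) :=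
  wf_concat f q.2 a q.1

theorem suf_zero (f : α → V → V) (q : V × List α) : suf f 0 q = q := by
  simp [suf]

theorem suf_suf (f : α → V → V) (i j : ℕ) (q : V × List α) :
    suf f j (suf f i q) = suf f (i + j) q := by
  show (wf f ((q.2.drop i).take j) (wf f (q.2.take i) q.1), (q.2.drop i).drop j) =
    (wf f (q.2.take (i + j)) q.1, q.2.drop (i + j))
  rw [← wf_append, List.drop_drop, ← List.take_add]

theorem suf_app (f : α → V → V) {i : ℕ} {q : V × List α} (h : i ≤ q.2.length) (a : α) :
    suf f i (app q a) = app (suf f i q) a := by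
  show (wf f ((q.2 ++ [a]).take i) q.1, (q.2 ++ [a]).drop i) =
    (wf f (q.2.take i) q.1, q.2.drop i ++ [a])
  rw [List.take_append_of_le_length h, List.drop_append_of_le_length h]

theorem suf_length (f : α → V → V) (i : ℕ) (q : V × List α) :
    (suf f i q).2.length = q.2.length - i := by
  simp [suf]

section

variable (f : α → V → V) (P : Pats α V)

theorem Pats.ex (q : V × List α) : ∃ i, suf f i q ∈ P.S := by
  refine ⟨q.2.length, ?_⟩
  have : suf f q.2.length q = (fin f q, []) := by simp [suf, fin]
  rw [this]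
  exact P.nil _

open Classical in
/-- the length of the part which is forgotten -/
noncomputable def Pats.idx (q : V × List α) : ℕ := Nat.find (P.ex f q)

/-- the longest suffix in `S` -/
noncomputable def Pats.sfx (q : V × List α) : V × List α := suf f (P.idx f q) q

theorem Pats.sfx_mem (q : V × List α) : P.sfx f q ∈ P.S := by
  classical
  exact Nat.find_spec (P.ex f q)

theorem Pats.idx_le {i : ℕ} {q : V × List α} (h : suf f i q ∈ P.S) : P.idx f q ≤ i := by
  classical
  exact Nat.find_min' (P.ex f q) h

theorem Pats.idx_le_length (q : V × List α) : P.idx f q ≤ q.2.length := by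
  refine P.idx_le f ?_
  have : suf f q.2.length q = (fin f q, []) := by simp [suf, fin]
  rw [this]
  exact P.nil _

theorem Pats.idx_eq {i : ℕ} {q : V × List α} (h : suf f i q ∈ P.S)
    (h' : ∀ j < i, suf f j q ∉ P.S) : P.idx f q = i := by
  refine le_antisymm (P.idx_le f h) ?_
  by_contra hlt
  exact h' _ (not_le.1 hlt) (P.sfx_mem f q)

theorem Pats.sfx_of_mem {q : V × List α} (h : q ∈ P.S) : P.sfx f q = q := by
  have : P.idx f q = 0 := by
    have := P.idx_le f (i := 0) (q := q) (by rw [suf_zero]; exact h)
    omega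
  rw [Pats.sfx, this, suf_zero]

theorem Pats.fin_sfx (q : V × List α) : fin f (P.sfx f q) = fin f q := fin_suf f _ q

/-- the longest suffix of a suffix -/
theorem Pats.sfx_suf {i : ℕ} {q : V × List α} (h : i ≤ P.idx f q) :
    P.sfx f (suf f i q) = P.sfx f q := by
  have : P.idx f (suf f i q) = P.idx f q - i := by
    refine P.idx_eq f ?_ ?_
    · rw [suf_suf, Nat.add_sub_cancel' h]
      exact P.sfx_mem f q
    · intro j hj hm
      rw [suf_suf] at hm
      have := P.idx_le f hm
      omega
  rw [Pats.sfx, this, suf_suf, Nat.add_sub_cancel' h, Pats.sfx]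

/-- THE STATE AFTER ONE MORE EDGE DEPENDS ON THE STATE ONLY -/
theorem Pats.sfx_app (q : V × List α) (a : α) :
    P.sfx f (app q a) = P.sfx f (app (P.sfx f q) a) := by
  have h1 : P.idx f q ≤ P.idx f (app q a) := by
    rcases Nat.lt_or_ge q.2.length (P.idx f (app q a)) with h | h
    · exact le_trans (P.idx_le_length f q) h.le
    · refine P.idx_le f ?_
      have h2 := P.sfx_mem f (app q a)
      rw [Pats.sfx, suf_app f h] at h2
      exact P.pre _ _ a h2
  rw [← P.sfx_suf f h1, suf_app f (P.idx_le_length f q)]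
  rfl

theorem Pats.sfx_append (q : V × List α) (y : List α) :
    P.sfx f (q.1, q.2 ++ y) = P.sfx f ((P.sfx f q).1, (P.sfx f q).2 ++ y) := by
  induction y using List.reverseRecOn with
  | nil => simp only [List.append_nil, Prod.mk.eta]; exact (P.sfx_of_mem f (P.sfx_mem f q)).symm
  | append_singleton y a ih =>
    have e1 : (q.1, q.2 ++ (y ++ [a])) = app (q.1, q.2 ++ y) a := by simp [app]
    have e2 : ((P.sfx f q).1, (P.sfx f q).2 ++ (y ++ [a])) =
        app ((P.sfx f q).1, (P.sfx f q).2 ++ y) a := by simp [app]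
    rw [e1, e2, P.sfx_app, ih, ← P.sfx_app]

/-- a long word determines the state -/
theorem Pats.sfx_long {M : ℕ} (hM : ∀ q ∈ P.S, q.2.length ≤ M) (v : V) (u y : List α)
    (hy : M ≤ y.length) : P.sfx f (v, u ++ y) = P.sfx f (wf f u v, y) := by
  have h1 : u.length ≤ P.idx f (v, u ++ y) := by
    by_contra h
    have h2 := hM _ (P.sfx_mem f (v, u ++ y))
    rw [Pats.sfx, suf_length] at h2
    simp only [List.length_append] at h2
    omega
  rw [← P.sfx_suf f h1]
  simp [suf]

/-- the states -/
abbrev Pats.St : Type := {q : V × List α // q ∈ P.S}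

/-- the transition -/
noncomputable def Pats.dl (a : α) (q : P.St) : P.St := ⟨P.sfx f (app q.1 a), P.sfx_mem f _⟩

theorem Pats.wf_dl (y : List α) (q : P.St) :
    (wf (P.dl f) y q).1 = P.sfx f (q.1.1, q.1.2 ++ y) := by
  induction y using List.reverseRecOn with
  | nil => simp only [wf_nil, List.append_nil, Prod.mk.eta]; exact (P.sfx_of_mem f q.2).symm
  | append_singleton y a ih =>
    have e1 : (q.1.1, q.1.2 ++ (y ++ [a])) = app (q.1.1, q.1.2 ++ y) a := by simp [app]
    rw [e1, P.sfx_app, ← ih, wf_concat]
    rfl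

theorem Pats.fin_dl (a : α) (q : P.St) : fin f (P.dl f a q).1 = f a (fin f q.1) := by
  show fin f (P.sfx f (app q.1 a)) = _
  rw [P.fin_sfx, fin_app]

/-- the automaton is definite, so its matrix is strong shift equivalent to that of `f` -/
theorem Pats.sse [Fintype α] [Fintype V] [DecidableEq V] [Fintype P.St] [DecidableEq P.St] {M : ℕ}
    (hM : ∀ q ∈ P.S, q.2.length ≤ M) : Sse (toFin (am (P.dl f))) (toFin (am f)) := by
  refine auto_sse f M (P.dl f) (fun q => fin f q.1) ?_ (P.fin_dl f) ?_
  · intro v
    exact ⟨⟨(v, []), P.nil v⟩, rfl⟩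
  · intro q q' h y hy
    apply Subtype.ext
    rw [P.wf_dl, P.wf_dl, P.sfx_long f hM _ _ _ hy.ge, P.sfx_long f hM _ _ _ hy.ge]
    have h' : wf f q.1.2 q.1.1 = wf f q'.1.2 q'.1.1 := h
    rw [h']

end

end Pool.Agent.WFS.Lab
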