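import Pool.Agent.WFS.Lab.Equi
import Pool.Agent.WFS.Lab.Per

/-!
# WFS module C: the bijection `Θ : PA → PN`

Fixed points of `(sg f)^[m]` with sequence `x` of period `m`: `wf f (seg x m) v = v`. If `x` contains `o^k` the map
`wf f (seg x m)` has exactly one fixed point (a power of it is constant, because `seg x (j m)` contains `o^k` for
large `j`). So for `1 ≤ m < N` the numbers of `m`-periodic points which avoid `o^k` agree:
`#{(v,x) : all} = (card α)^m = #{x : all}` by `h3`, and `#{(v,x) : x contains o^k} = #{x : x contains o^k}`.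
For `m < N` the fixed points of `(sg f)^[m]` in `PA` are exactly the `m`-periodic pairs avoiding `o^k`, similarly `PN`.
Then `ncard_minimalPeriod` and `exists_equivariant`.
-/

set_option autoImplicit false

namespace Pool.Agent.WFS.Lab

open Pool.Agent.WFS

theorem exists_theta {α V : Type} [Fintype α] [DecidableEq α] [Fintype V] [DecidableEq V]
    (f : α → V → V) (o : α) (k N : ℕ) (c0 : V) (hk : 1 ≤ k)
    (hf0 : ∀ v, wf f (List.replicate k o) v = c0)
    (h3 : ∀ m, 1 ≤ m → m < N →
      Fintype.card {q : V × (Fin m → α) // wf f (List.ofFn q.2) q.1 = q.1} = Fintype.card α ^ m) :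
    ∃ (Θ : V × (ℕ → α) → (ℕ → α)) (Ψ : (ℕ → α) → V × (ℕ → α)),
      (∀ z ∈ PA f o k N, Θ z ∈ PN o k N ∧ Ψ (Θ z) = z ∧ Θ (sg f z) = sh 1 (Θ z)) ∧
      (∀ x ∈ PN o k N, Ψ x ∈ PA f o k N ∧ Θ (Ψ x) = x) := by
  sorry

end Pool.Agent.WFS.Lab
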